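import Mathlib

set_option autoImplicit false

namespace Pool.Agent.Work.MP_93fab9_mp

/-- cyclic rank of the bit `b` in the order starting at `l`. -/
def rk (K l b : ℕ) : ℕ := if l ≤ b then b - l + 1 else K - l + b + 1

/-- positions below `K` at which the binary digits of `i` and `j` differ -/
def dset (K i j : ℕ) : Finset ℕ := (Finset.range K).filter fun b => i.testBit b ≠ j.testBit b

/-- maximal rank of a differing digit -/
def lev (K l i j : ℕ) : ℕ := (dset K i j).sup (rk K l)

lemma mem_dset {K i j b : ℕ} : b ∈ dset K i j ↔ b < K ∧ i.testBit b ≠ j.testBit b := by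
  simp [dset]

lemma dset_self (K i : ℕ) : dset K i i = ∅ := by
  ext b; simp [dset]

lemma dset_comm (K i j : ℕ) : dset K i j = dset K j i := by
  ext b; rw [mem_dset, mem_dset, ne_comm]

lemma lev_self (K l i : ℕ) : lev K l i i = 0 := by
  simp [lev, dset_self]

lemma lev_comm (K l i j : ℕ) : lev K l i j = lev K l j i := by
  simp [lev, dset_comm K i j]

/-- when the digits at `l` differ, the level w.r.t. `l + 1` is `K`. -/
lemma lev_succ_of_ne {K l i j : ℕ} (hl : l < K) (h : i.testBit l ≠ j.testBit l) :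
    lev K (l + 1) i j = K := by
  apply le_antisymm
  · apply Finset.sup_le
    intro b hb
    rw [mem_dset] at hb
    unfold rk
    split_ifs <;> omega
  · have h1 : l ∈ dset K i j := mem_dset.2 ⟨hl, h⟩
    have h2 := Finset.le_sup (f := rk K (l + 1)) h1
    have h3 : rk K (l + 1) l = K := by
      unfold rk
      rw [if_neg (by omega)]
      omega
    rw [h3] at h2
    exact h2

/-- level of the digits other than `l` -/
def lev' (K l i j : ℕ) : ℕ := ((dset K i j).erase l).sup (rk K (l + 1))

lemma lev_succ_of_eq {K l i j : ℕ} (h : i.testBit l = j.testBit l) :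
    lev K (l + 1) i j = lev' K l i j := by
  unfold lev lev'
  rw [Finset.erase_eq_of_notMem]
  rw [mem_dset]
  simp [h]

lemma lev_of_erase_nonempty {K l i j : ℕ} (hl : l < K) (h : ((dset K i j).erase l).Nonempty) :
    lev K l i j = lev' K l i j + 1 := by
  have hr : ∀ b < K, b ≠ l → rk K l b = rk K (l + 1) b + 1 := by
    intro b hb hbl
    unfold rk
    split_ifs <;> omega
  have hl1 : rk K l l = 1 := by unfold rk; simp
  apply le_antisymm
  · apply Finset.sup_le
    intro b hb
    by_cases hbl : b = l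
    · rw [hbl, hl1]; omega
    · rw [hr b (mem_dset.1 hb).1 hbl]
      have := Finset.le_sup (f := rk K (l + 1)) (Finset.mem_erase.2 ⟨hbl, hb⟩)
      unfold lev'
      omega
  · obtain ⟨b, hb, hb2⟩ := Finset.exists_mem_eq_sup _ h (rk K (l + 1))
    have hb' := Finset.mem_erase.1 hb
    have h1 := Finset.le_sup (f := rk K l) hb'.2
    rw [hr b (mem_dset.1 hb'.2).1 hb'.1] at h1
    unfold lev' lev
    rw [hb2]
    exact h1

lemma lev_of_erase_empty {K l i j : ℕ} (hl : l < K) (h : (dset K i j).erase l = ∅)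
    (hne : i.testBit l ≠ j.testBit l) : lev K l i j = 1 := by
  have h1 : dset K i j = {l} := by
    have h2 : l ∈ dset K i j := mem_dset.2 ⟨hl, hne⟩
    rw [← Finset.insert_erase h2, h]
    rfl
  unfold lev
  rw [h1, Finset.sup_singleton]
  unfold rk
  simp

/-- the functions in the chain -/
noncomputable def phi (K : ℕ) (x r : ℝ) (l i j : ℕ) : ℝ := (x + 1) / r ^ (lev K l i j) - 2

lemma phi_comm (K : ℕ) (x r : ℝ) (l i j : ℕ) : phi K x r l i j = phi K x r l j i := by
  unfold phi; rw [lev_comm]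

/-- agreement of all digits other than `l`. -/
def same (K l i j : ℕ) : Prop := ∀ b < K, b ≠ l → i.testBit b = j.testBit b

lemma dset_erase_congr {K l i j i' j' : ℕ} (hi : same K l i i') (hj : same K l j j') :
    (dset K i j).erase l = (dset K i' j').erase l := by
  ext b
  rw [Finset.mem_erase, Finset.mem_erase, mem_dset, mem_dset]
  constructor
  · rintro ⟨h1, h2, h3⟩
    exact ⟨h1, h2, by rw [← hi b h2 h1, ← hj b h2 h1]; exact h3⟩
  · rintro ⟨h1, h2, h3⟩
    exact ⟨h1, h2, by rw [hi b h2 h1, hj b h2 h1]; exact h3⟩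

lemma not_same_iff {K l i j : ℕ} : ¬ same K l i j ↔ ((dset K i j).erase l).Nonempty := by
  unfold same
  push Not
  constructor
  · rintro ⟨b, h1, h2, h3⟩
    exact ⟨b, Finset.mem_erase.2 ⟨h2, mem_dset.2 ⟨h1, h3⟩⟩⟩
  · rintro ⟨b, hb⟩
    rw [Finset.mem_erase, mem_dset] at hb
    exact ⟨b, hb.2.1, hb.1, hb.2.2⟩

section
variable {K : ℕ} {x r : ℝ} (hx : 0 < x) (hr : r = (3 * x - 1) / (2 * x)) (hr0 : 0 < r)
  (hrK : r ^ K = x)

include hx hr hr0 hrK

omit hx hr hr0 in
lemma phi_succ_ne {l i j : ℕ} (hl : l < K) (h : i.testBit l ≠ j.testBit l) :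
    phi K x r (l + 1) i j = (x + 1) / x - 2 := by
  unfold phi
  rw [lev_succ_of_ne hl h, hrK]

/-- Case of two distinct gates. -/
lemma step_far {l i j : ℕ} (hl : l < K) (h : ¬ same K l i j) (i0 i1 j0 j1 : ℕ)
    (hi0 : same K l i i0) (hi1 : same K l i i1) (hj0 : same K l j j0) (hj1 : same K l j j1)
    (bi0 : i0.testBit l = false) (bi1 : i1.testBit l = true)
    (bj0 : j0.testBit l = false) (bj1 : j1.testBit l = true) :
    1 / 4 * (phi K x r (l + 1) i0 j0 + phi K x r (l + 1) i0 j1 + phi K x r (l + 1) i1 j0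
      + phi K x r (l + 1) i1 j1) = r / 2 * phi K x r l i j := by
  have e01 := phi_succ_ne hrK hl (i := i0) (j := j1) (by simp [bi0, bj1])
  have e10 := phi_succ_ne hrK hl (i := i1) (j := j0) (by simp [bi1, bj0])
  have e00 : phi K x r (l + 1) i0 j0 = (x + 1) / r ^ (lev' K l i j) - 2 := by
    unfold phi
    rw [lev_succ_of_eq (by rw [bi0, bj0])]
    unfold lev'
    rw [dset_erase_congr hi0 hj0]
  have e11 : phi K x r (l + 1) i1 j1 = (x + 1) / r ^ (lev' K l i j) - 2 := by
    unfold phi
    rw [lev_succ_of_eq (by rw [bi1, bj1])]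
    unfold lev'
    rw [dset_erase_congr hi1 hj1]
  have e : phi K x r l i j = (x + 1) / (r ^ (lev' K l i j) * r) - 2 := by
    unfold phi
    rw [lev_of_erase_nonempty hl (not_same_iff.1 h), pow_succ]
  rw [e00, e01, e10, e11, e]
  have hp : r ^ (lev' K l i j) ≠ 0 := (pow_pos hr0 _).ne'
  generalize r ^ (lev' K l i j) = p at *
  have h3 : r / 2 * ((x + 1) / (p * r) - 2) = (x + 1) / p / 2 - r := by
    field_simp
  rw [h3, hr]
  field_simp
  ring

/-- Same gate, same mode. -/
lemma step_diag {l i i' : ℕ} (hl : l < K) (h : i.testBit l ≠ i'.testBit l) :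
    3 / 4 * phi K x r (l + 1) i i + 1 / 4 * phi K x r (l + 1) i i' = r / 2 * phi K x r l i i := by
  rw [phi_succ_ne hrK hl h]
  unfold phi
  rw [lev_self, lev_self, hr]
  field_simp
  ring

/-- Same gate, different mode. -/
lemma step_off {l i i' : ℕ} (hl : l < K) (h : i.testBit l ≠ i'.testBit l) (hs : same K l i i') :
    1 / 2 * phi K x r (l + 1) i i + 1 / 2 * phi K x r (l + 1) i i' = r / 2 * phi K x r l i i' := by
  rw [phi_succ_ne hrK hl h]
  have h1 : (dset K i i').erase l = ∅ := by
    rw [← Finset.not_nonempty_iff_eq_empty, ← not_same_iff, not_not]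
    exact hs
  unfold phi
  rw [lev_self, lev_of_erase_empty hl h1 h, pow_one]
  have h3 : r / 2 * ((x + 1) / r - 2) = (x + 1) / 2 - r := by
    field_simp
  rw [h3, hr]
  field_simp
  ring

end

lemma phi_zero_eq_phi_K (K : ℕ) (x r : ℝ) (i j : ℕ) : phi K x r K i j = phi K x r 0 i j := by
  unfold phi lev
  congr 3
  apply Finset.sup_congr rfl
  intro b hb
  rw [mem_dset] at hb
  unfold rk
  rw [if_neg (by omega), if_pos (by omega)]
  omega

end Pool.Agent.Work.MP_93fab9_mp
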