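import Mathlib

set_option autoImplicit false

namespace Pool.Agent.Work.MP_93fab9_mp

open MeasureTheory Real

/-- uniform distribution on `[0, 2π)` -/
noncomputable def unif : Measure ℝ := ProbabilityTheory.cond volume (Set.Ico 0 (2 * π))

lemma vol_Ico : volume (Set.Ico 0 (2 * π)) = ENNReal.ofReal (2 * π) := by
  rw [Real.volume_Ico, sub_zero]

instance : IsProbabilityMeasure unif := by
  unfold unif
  apply ProbabilityTheory.cond_isProbabilityMeasure_of_finite
  · rw [vol_Ico]
    simp [Real.pi_pos]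
  · rw [vol_Ico]
    exact ENNReal.ofReal_ne_top

lemma integral_unif {E : Type*} [NormedAddCommGroup E] [NormedSpace ℝ E] (f : ℝ → E) :
    ∫ x, f x ∂unif = (2 * π)⁻¹ • ∫ x in (0 : ℝ)..(2 * π), f x := by
  unfold unif ProbabilityTheory.cond
  rw [integral_smul_measure, vol_Ico, restrict_Ico_eq_restrict_Ioc,
    intervalIntegral.integral_of_le (by positivity), ENNReal.toReal_inv,
    ENNReal.toReal_ofReal (by positivity)]

/-- trigonometric moments -/
noncomputable def J (a b : ℕ) : ℝ := ∫ t, cos t ^ a * sin t ^ b ∂unif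

lemma J20 : J 2 0 = 1 / 2 := by
  unfold J
  rw [integral_unif]
  simp only [pow_zero, mul_one, integral_cos_sq, smul_eq_mul, sin_two_pi, sin_zero, cos_zero,
    cos_two_pi]
  field_simp
  ring

lemma J02 : J 0 2 = 1 / 2 := by
  unfold J
  rw [integral_unif]
  simp only [pow_zero, one_mul, integral_sin_sq, smul_eq_mul, sin_two_pi, sin_zero, cos_zero,
    cos_two_pi]
  field_simp
  ring

lemma J11 : J 1 1 = 0 := by
  unfold J
  rw [integral_unif]
  have h : ∫ x in (0 : ℝ)..(2 * π), cos x ^ 1 * sin x ^ 1 =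
      ∫ x in (0 : ℝ)..(2 * π), sin x * cos x := by
    congr 1; funext x; ring
  rw [h, integral_sin_mul_cos₁]
  simp

lemma J22 : J 2 2 = 1 / 8 := by
  unfold J
  rw [integral_unif]
  have h : ∫ x in (0 : ℝ)..(2 * π), cos x ^ 2 * sin x ^ 2 =
      ∫ x in (0 : ℝ)..(2 * π), sin x ^ 2 * cos x ^ 2 := by
    congr 1; funext x; ring
  have h4 : sin (4 * (2 * π)) = 0 := by
    have := Real.sin_nat_mul_pi 8
    rw [show (4 * (2 * π) : ℝ) = ((8 : ℕ) : ℝ) * π by push_cast; ring]
    exact this
  rw [h, integral_sin_sq_mul_cos_sq, h4]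
  simp
  field_simp

lemma J_rec_cos (a b : ℕ) : J (a + 2) b = J a b - J a (b + 2) := by
  unfold J
  rw [integral_unif, integral_unif, integral_unif, ← smul_sub, ← intervalIntegral.integral_sub]
  · congr 2
    funext x
    have := cos_sq' x
    rw [pow_add, this]
    ring
  · apply Continuous.intervalIntegrable
    fun_prop
  · apply Continuous.intervalIntegrable
    fun_prop

lemma J40 : J 4 0 = 3 / 8 := by
  rw [J_rec_cos 2 0, J20, J22]; norm_num

lemma J04 : J 0 4 = 3 / 8 := by
  have h := J_rec_cos 0 2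
  rw [J22, J02] at h
  linarith

lemma J13 : J 1 3 = 0 := by
  unfold J
  rw [integral_unif]
  have h : ∫ x in (0 : ℝ)..(2 * π), cos x ^ 1 * sin x ^ 3 = 0 := by
    have h1 : ∀ x ∈ Set.uIcc 0 (2 * π), HasDerivAt (fun x => sin x ^ 4 / 4) (cos x ^ 1 * sin x ^ 3) x := by
      intro x _
      have := ((Real.hasDerivAt_sin x).pow 4).div_const 4
      convert! this using 1
      ring
    rw [intervalIntegral.integral_eq_sub_of_hasDerivAt h1]
    · simp
    · apply Continuous.intervalIntegrable
      fun_prop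
  rw [h]; simp

lemma J31 : J 3 1 = 0 := by
  rw [J_rec_cos 1 1, J11, J13]; norm_num

/-- phase moments -/
lemma integral_phase (m : ℤ) :
    ∫ t : ℝ, Complex.exp (Complex.I * m * t) ∂unif = if m = 0 then 1 else 0 := by
  rw [integral_unif]
  split_ifs with h
  · simp only [h, Int.cast_zero, mul_zero, zero_mul, Complex.exp_zero,
      intervalIntegral.integral_const, sub_zero, Complex.real_smul]
    have : ((2 * π : ℝ) : ℂ) ≠ 0 := by
      exact_mod_cast (by positivity : (2 * π : ℝ) ≠ 0)
    push_cast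
    push_cast at this
    field_simp
  · have h1 : (Complex.I * m : ℂ) ≠ 0 := by
      apply mul_ne_zero Complex.I_ne_zero
      exact_mod_cast h
    rw [integral_exp_mul_complex h1]
    have h2 : Complex.exp (Complex.I * m * ((2 * π : ℝ) : ℂ)) = 1 := by
      rw [Complex.exp_eq_one_iff]
      refine ⟨m, ?_⟩
      push_cast
      ring
    rw [h2]
    simp

end Pool.Agent.Work.MP_93fab9_mp
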