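import Mathlib
import Pool.Agent.Work.MP_93fab9_mp.Trig

set_option autoImplicit false

namespace Pool.Agent.Work.MP_93fab9_mp

open MeasureTheory Real

/-- The random gate `V(θ, φ)`. -/
noncomputable def gateV (t : ℝ × ℝ) : Matrix (Fin 2) (Fin 2) ℂ :=
  !![(cos t.1 : ℂ), (sin t.1 : ℂ); -(sin t.1 : ℂ), (cos t.1 : ℂ)] *
    Matrix.diagonal ![Complex.exp (Complex.I * (t.2 / 2)), Complex.exp (-(Complex.I * (t.2 / 2)))]

/-- law of the two angles -/
noncomputable def unif2 : Measure (ℝ × ℝ) := unif.prod unif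

instance : IsProbabilityMeasure unif2 := by
  unfold unif2; infer_instance

/-- signs -/
def sgR : Fin 2 → Fin 2 → ℝ := ![![1, 1], ![-1, 1]]
/-- cosine exponents -/
def cR : Fin 2 → Fin 2 → ℕ := ![![1, 0], ![0, 1]]
/-- sine exponents -/
def sR : Fin 2 → Fin 2 → ℕ := ![![0, 1], ![1, 0]]
/-- charges -/
def eR : Fin 2 → ℤ := ![1, -1]

lemma gateV_apply (t : ℝ × ℝ) (a b : Fin 2) :
    gateV t a b = ((sgR a b * (cos t.1 ^ (cR a b) * sin t.1 ^ (sR a b)) : ℝ) : ℂ) *
      Complex.exp (Complex.I * (eR b) * (t.2 / 2)) := by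
  unfold gateV
  rw [Matrix.mul_diagonal]
  fin_cases a <;> fin_cases b <;> simp [sgR, cR, sR, eR]

lemma gateV_conj (t : ℝ × ℝ) (a b : Fin 2) :
    star (gateV t a b) = ((sgR a b * (cos t.1 ^ (cR a b) * sin t.1 ^ (sR a b)) : ℝ) : ℂ) *
      Complex.exp (-(Complex.I * (eR b) * (t.2 / 2))) := by
  rw [gateV_apply, star_mul', Complex.star_def, Complex.conj_ofReal,
    ← Complex.exp_conj]
  congr 2
  have h2 : (starRingEnd ℂ) 2 = 2 := Complex.conj_ofNat 2
  simp [h2]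

lemma gateV_second (a b c : Fin 2) :
    ∫ t, star (gateV t a b) * gateV t a c ∂unif2 = if b = c then 1 / 2 else 0 := by
  have h : ∀ t : ℝ × ℝ, star (gateV t a b) * gateV t a c =
      (((sgR a b * sgR a c * (cos t.1 ^ (cR a b + cR a c) * sin t.1 ^ (sR a b + sR a c)) : ℝ)) : ℂ) *
      Complex.exp (Complex.I * (((eR c - eR b) / 2 : ℤ) : ℂ) * t.2) := by
    intro t
    have he : (((eR c - eR b) / 2 : ℤ) : ℂ) = ((eR c : ℂ) - (eR b : ℂ)) / 2 := by
      fin_cases b <;> fin_cases c <;> simp [eR] <;> norm_num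
    rw [gateV_conj, gateV_apply, he, pow_add, pow_add]
    have h2 : Complex.exp (Complex.I * (((eR c : ℂ) - (eR b : ℂ)) / 2) * t.2) =
        Complex.exp (-(Complex.I * (eR b) * (t.2 / 2))) * Complex.exp (Complex.I * (eR c) * (t.2 / 2)) := by
      rw [← Complex.exp_add]; congr 1; ring
    rw [h2]
    push_cast
    ring
  simp_rw [h]
  unfold unif2
  rw [integral_prod_mul (fun x : ℝ => (((sgR a b * sgR a c * (cos x ^ (cR a b + cR a c) *
    sin x ^ (sR a b + sR a c)) : ℝ)) : ℂ)) (fun y : ℝ => Complex.exp (Complex.I *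
    (((eR c - eR b) / 2 : ℤ) : ℂ) * y)), integral_phase, integral_complex_ofReal, integral_const_mul]
  have hJ : ∫ x, cos x ^ (cR a b + cR a c) * sin x ^ (sR a b + sR a c) ∂unif =
      J (cR a b + cR a c) (sR a b + sR a c) := rfl
  rw [hJ]
  fin_cases a <;> fin_cases b <;> fin_cases c <;> simp [sgR, cR, sR, eR, J20, J02]

lemma gateV_fourth (a b1 b2 b3 b4 : Fin 2) :
    ∫ t, star (gateV t a b1) * star (gateV t a b2) * (gateV t a b3 * gateV t a b4) ∂unif2 =
      if b1 = b2 then (if b1 = b3 ∧ b1 = b4 then 3 / 8 else 0)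
      else (if (b1 = b3 ∧ b2 = b4) ∨ (b1 = b4 ∧ b2 = b3) then 1 / 8 else 0) := by
  have h : ∀ t : ℝ × ℝ, star (gateV t a b1) * star (gateV t a b2) * (gateV t a b3 * gateV t a b4) =
      (((sgR a b1 * sgR a b2 * sgR a b3 * sgR a b4 *
        (cos t.1 ^ (cR a b1 + cR a b2 + cR a b3 + cR a b4) *
        sin t.1 ^ (sR a b1 + sR a b2 + sR a b3 + sR a b4)) : ℝ)) : ℂ) *
      Complex.exp (Complex.I * (((eR b3 + eR b4 - eR b1 - eR b2) / 2 : ℤ) : ℂ) * t.2) := by
    intro t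
    have he : (((eR b3 + eR b4 - eR b1 - eR b2) / 2 : ℤ) : ℂ) =
        ((eR b3 : ℂ) + (eR b4 : ℂ) - (eR b1 : ℂ) - (eR b2 : ℂ)) / 2 := by
      fin_cases b1 <;> fin_cases b2 <;> fin_cases b3 <;> fin_cases b4 <;> simp [eR] <;> norm_num
    rw [gateV_conj, gateV_conj, gateV_apply, gateV_apply, he]
    simp only [pow_add]
    have h2 : Complex.exp (Complex.I * (((eR b3 : ℂ) + (eR b4 : ℂ) - (eR b1 : ℂ) - (eR b2 : ℂ)) / 2)
        * t.2) =
        Complex.exp (-(Complex.I * (eR b1) * (t.2 / 2))) * Complex.exp (-(Complex.I * (eR b2) * (t.2 / 2)))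
        * (Complex.exp (Complex.I * (eR b3) * (t.2 / 2)) * Complex.exp (Complex.I * (eR b4) * (t.2 / 2))) := by
      rw [← Complex.exp_add, ← Complex.exp_add, ← Complex.exp_add]; congr 1; ring
    rw [h2]
    push_cast
    ring
  simp_rw [h]
  unfold unif2
  rw [integral_prod_mul (fun x : ℝ => (((sgR a b1 * sgR a b2 * sgR a b3 * sgR a b4 *
        (cos x ^ (cR a b1 + cR a b2 + cR a b3 + cR a b4) *
        sin x ^ (sR a b1 + sR a b2 + sR a b3 + sR a b4)) : ℝ)) : ℂ)) (fun y : ℝ => Complex.exp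
        (Complex.I * (((eR b3 + eR b4 - eR b1 - eR b2) / 2 : ℤ) : ℂ) * y)),
    integral_phase, integral_complex_ofReal, integral_const_mul]
  have hJ : ∫ x, cos x ^ (cR a b1 + cR a b2 + cR a b3 + cR a b4) *
        sin x ^ (sR a b1 + sR a b2 + sR a b3 + sR a b4) ∂unif =
      J (cR a b1 + cR a b2 + cR a b3 + cR a b4) (sR a b1 + sR a b2 + sR a b3 + sR a b4) := rfl
  rw [hJ]
  fin_cases a <;> fin_cases b1 <;> fin_cases b2 <;> fin_cases b3 <;> fin_cases b4 <;>
    simp [sgR, cR, sR, eR, J40, J04, J31, J13, J22]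

end Pool.Agent.Work.MP_93fab9_mp
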