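import Mathlib
import Pool.Agent.Work.MP_93fab9_mp.Gate
import Pool.Agent.Work.MP_93fab9_mp.Chain

set_option autoImplicit false

namespace Pool.Agent.Work.MP_93fab9_mp

/-- Modes of `ℂ^(2^K)` whose `l`-th binary digit (counted from `0`) is `0`; each of them is the
smaller mode of exactly one pair of the layer with stride `2^l`. -/
abbrev LowMode (K l : ℕ) : Type := {i : Fin (2 ^ K) // (i : ℕ).testBit l = false}

lemma add_testBit {l x : ℕ} (h : x.testBit l = false) (b : ℕ) :
    (x + 2 ^ l).testBit b = if b = l then true else x.testBit b := by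
  -- write `x = 2^(l+1) * q + r` with `r < 2^l`
  set q := x / 2 ^ (l + 1) with hq
  set r := x % 2 ^ (l + 1) with hr
  have hx : x = 2 ^ (l + 1) * q + r := (Nat.div_add_mod x _).symm
  have hr1 : r < 2 ^ (l + 1) := Nat.mod_lt _ (by positivity)
  have hr2 : r < 2 ^ l := by
    by_contra hcon
    push Not at hcon
    have h1 : r.testBit l = true := by
      have h2 : r = 2 ^ l + (r - 2 ^ l) := by omega
      rw [h2, Nat.testBit_two_pow_add_eq]
      have h3 : r - 2 ^ l < 2 ^ l := by rw [pow_succ] at hr1; omega
      rw [Nat.testBit_lt_two_pow h3]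
      rfl
    have h4 : x.testBit l = true := by
      rw [hx, Nat.testBit_two_pow_mul_add _ hr1, if_pos (by omega)]
      exact h1
    rw [h] at h4
    exact Bool.false_ne_true h4
  have hr3 : 2 ^ l + r < 2 ^ (l + 1) := by rw [pow_succ]; omega
  have hx2 : x + 2 ^ l = 2 ^ (l + 1) * q + (2 ^ l + r) := by omega
  rw [hx2, Nat.testBit_two_pow_mul_add _ hr3]
  have hxb : x.testBit b = if b < l + 1 then r.testBit b else q.testBit (b - (l + 1)) := by
    conv_lhs => rw [hx]
    rw [Nat.testBit_two_pow_mul_add _ hr1]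
  rw [hxb]
  by_cases hb1 : b = l
  · rw [if_pos hb1, if_pos (by omega), hb1, Nat.testBit_two_pow_add_eq,
      Nat.testBit_lt_two_pow hr2]
    rfl
  · by_cases hb2 : b < l + 1
    · rw [if_pos hb2, if_neg hb1, if_pos hb2]
      exact Nat.testBit_two_pow_add_gt (by omega) _
    · rw [if_neg hb2, if_neg hb1, if_neg hb2]

lemma sub_facts {l i : ℕ} (h : i.testBit l = true) :
    2 ^ l ≤ i ∧ ∀ b, (i - 2 ^ l).testBit b = if b = l then false else i.testBit b := by
  set y := i ^^^ 2 ^ l with hy
  have hyb : ∀ b, y.testBit b = if b = l then false else i.testBit b := by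
    intro b
    rw [hy, Nat.testBit_xor, Nat.testBit_two_pow]
    by_cases hb : b = l
    · subst hb
      simp [h]
    · have : ¬ l = b := fun h => hb h.symm
      simp [hb, this]
  have hyl : y.testBit l = false := by rw [hyb]; simp
  have h1 : y + 2 ^ l = i := by
    apply Nat.eq_of_testBit_eq
    intro b
    rw [add_testBit hyl, hyb]
    by_cases hb : b = l
    · simp [hb, h]
    · simp [hb]
  have h2 : i - 2 ^ l = y := by omega
  refine ⟨by omega, fun b => ?_⟩
  rw [h2, hyb]

/-- The smaller mode of the pair (of the layer with stride `2^l`) containing `i`: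
`i` itself if its `l`-th binary digit is `0`, and `i - 2^l` otherwise. -/
def lowMode {K : ℕ} (l : ℕ) (i : Fin (2 ^ K)) : LowMode K l :=
  if h : (i : ℕ).testBit l = false then ⟨i, h⟩
  else ⟨⟨(i : ℕ) - 2 ^ l, lt_of_le_of_lt (Nat.sub_le _ _) i.2⟩, by
    have h' : (i : ℕ).testBit l = true := by simpa using h
    show ((i : ℕ) - 2 ^ l).testBit l = false
    rw [(sub_facts h').2]; simp⟩

/-- The `l`-th binary digit of `i`. -/
def digit {K : ℕ} (l : ℕ) (i : Fin (2 ^ K)) : Fin 2 := if (i : ℕ).testBit l then 1 else 0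

lemma digit_eq_zero {K l : ℕ} {i : Fin (2 ^ K)} : digit l i = 0 ↔ (i : ℕ).testBit l = false := by
  unfold digit
  split_ifs with h <;> simp [h]

lemma digit_eq_one {K l : ℕ} {i : Fin (2 ^ K)} : digit l i = 1 ↔ (i : ℕ).testBit l = true := by
  unfold digit
  split_ifs with h <;> simp [h]

lemma lowMode_testBit {K l : ℕ} (i : Fin (2 ^ K)) (b : ℕ) :
    ((lowMode l i : LowMode K l) : Fin (2 ^ K)).val.testBit b
      = if b = l then false else (i : ℕ).testBit b := by
  unfold lowMode
  split_ifs with h h1 h1
  · simp [h1, h]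
  · simp
  · have h' : (i : ℕ).testBit l = true := by simpa using h
    show ((i : ℕ) - 2 ^ l).testBit b = false
    rw [(sub_facts h').2]; simp [h1]
  · have h' : (i : ℕ).testBit l = true := by simpa using h
    show ((i : ℕ) - 2 ^ l).testBit b = _
    rw [(sub_facts h').2]; simp [h1]

/-- mode with given low mode and digit -/
def mode {K l : ℕ} (hl : l < K) (p : Fin 2 × LowMode K l) : Fin (2 ^ K) :=
  if p.1 = 0 then p.2.1 else ⟨(p.2.1 : ℕ) + 2 ^ l, by
    apply Nat.lt_pow_two_of_testBit
    intro b hb
    rw [add_testBit p.2.2, if_neg (by omega)]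
    exact Nat.testBit_lt_two_pow (lt_of_lt_of_le p.2.1.2 (Nat.pow_le_pow_right (by norm_num) hb))⟩

lemma mode_testBit {K l : ℕ} (hl : l < K) (a : Fin 2) (g : LowMode K l) (b : ℕ) :
    (mode hl (a, g) : ℕ).testBit b = if b = l then (if a = 0 then false else true)
      else (g.1 : ℕ).testBit b := by
  unfold mode
  by_cases ha : a = 0
  · by_cases hb : b = l
    · subst hb
      simp [ha, g.2]
    · simp [ha, hb]
  · have : (a, g).1 ≠ 0 := ha
    rw [if_neg this]
    show ((g.1 : ℕ) + 2 ^ l).testBit b = _
    rw [add_testBit g.2]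
    simp [ha]

lemma fin_ext_testBit {K : ℕ} {i j : Fin (2 ^ K)} (h : ∀ b < K, (i : ℕ).testBit b = (j : ℕ).testBit b) :
    i = j := by
  apply Fin.ext
  apply Nat.eq_of_testBit_eq
  intro b
  by_cases hb : b < K
  · exact h b hb
  · rw [Nat.testBit_lt_two_pow (lt_of_lt_of_le i.2 (Nat.pow_le_pow_right (by norm_num) (by omega))),
      Nat.testBit_lt_two_pow (lt_of_lt_of_le j.2 (Nat.pow_le_pow_right (by norm_num) (by omega)))]

/-- the modes are pairs of a digit and a low mode -/
def modeEquiv {K l : ℕ} (hl : l < K) : Fin (2 ^ K) ≃ Fin 2 × LowMode K l where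
  toFun i := (digit l i, lowMode l i)
  invFun := mode hl
  left_inv i := by
    apply fin_ext_testBit
    intro b _
    rw [mode_testBit, lowMode_testBit]
    by_cases hb : b = l
    · subst hb
      simp only [if_true]
      by_cases h : (i : ℕ).testBit b = true
      · have := digit_eq_one.2 h
        rw [this, h]; simp
      · have h' : (i : ℕ).testBit b = false := by simpa using h
        have := digit_eq_zero.2 h'
        rw [this, h']; simp
    · simp [hb]
  right_inv := by
    rintro ⟨a, g⟩
    apply Prod.ext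
    · show digit l (mode hl (a, g)) = a
      unfold digit
      rw [mode_testBit]
      fin_cases a <;> simp
    · show lowMode l (mode hl (a, g)) = g
      apply Subtype.ext
      apply fin_ext_testBit
      intro b _
      rw [lowMode_testBit, mode_testBit]
      by_cases hb : b = l
      · subst hb; simp [g.2]
      · simp [hb]

lemma digit_mode {K l : ℕ} (hl : l < K) (a : Fin 2) (g : LowMode K l) :
    digit l (mode hl (a, g)) = a := congrArg Prod.fst ((modeEquiv hl).right_inv (a, g))

lemma lowMode_mode {K l : ℕ} (hl : l < K) (a : Fin 2) (g : LowMode K l) :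
    lowMode l (mode hl (a, g)) = g := congrArg Prod.snd ((modeEquiv hl).right_inv (a, g))

lemma mode_digit_low {K l : ℕ} (hl : l < K) (i : Fin (2 ^ K)) :
    mode hl (digit l i, lowMode l i) = i := (modeEquiv hl).left_inv i

lemma eq_iff {K l : ℕ} (hl : l < K) (i j : Fin (2 ^ K)) :
    i = j ↔ digit l i = digit l j ∧ lowMode l i = lowMode l j := by
  constructor
  · rintro rfl; exact ⟨rfl, rfl⟩
  · rintro ⟨h1, h2⟩
    rw [← mode_digit_low hl i, ← mode_digit_low hl j, h1, h2]

lemma low_eq_iff_same {K l : ℕ} (i j : Fin (2 ^ K)) :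
    lowMode l i = lowMode l j ↔ same K l i j := by
  constructor
  · intro h b hb hbl
    have h1 := lowMode_testBit (l := l) i b
    have h2 := lowMode_testBit (l := l) j b
    rw [if_neg hbl] at h1 h2
    rw [← h1, ← h2, h]
  · intro h
    apply Subtype.ext
    apply fin_ext_testBit
    intro b hb
    rw [lowMode_testBit, lowMode_testBit]
    by_cases hbl : b = l
    · simp [hbl]
    · rw [if_neg hbl, if_neg hbl, h b hb hbl]

end Pool.Agent.Work.MP_93fab9_mp
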