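import Mathlib
import Pool.Agent.Work.MP_93fab9_mp.Modes

set_option autoImplicit false

namespace Pool.Agent.Work.MP_93fab9_mp

open MeasureTheory

/-- The layer with stride `2^l`: it acts by the gate `V` on every pair `{g, g + 2^l}`. -/
noncomputable def layerU (K l : ℕ) (w : LowMode K l → ℝ × ℝ) :
    Matrix (Fin (2 ^ K)) (Fin (2 ^ K)) ℂ :=
  Matrix.of fun i j =>
    if lowMode l i = lowMode l j then gateV (w (lowMode l j)) (digit l i) (digit l j) else 0

/-- Independent uniform angles for the gates of a layer. -/
noncomputable def layerMeasure (K l : ℕ) : Measure (LowMode K l → ℝ × ℝ) :=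
  Measure.pi fun _ => unif2

instance (K l : ℕ) : IsProbabilityMeasure (layerMeasure K l) := by
  unfold layerMeasure; infer_instance

/-! ### regularity -/

lemma gateV_continuous (a b : Fin 2) : Continuous fun t => gateV t a b := by
  have h : (fun t => gateV t a b) = fun t : ℝ × ℝ =>
      ((sgR a b * (Real.cos t.1 ^ (cR a b) * Real.sin t.1 ^ (sR a b)) : ℝ) : ℂ) *
      Complex.exp (Complex.I * (eR b) * (t.2 / 2)) := by
    funext t; exact gateV_apply t a b
  rw [h]
  fun_prop

lemma gateV_unitary (t : ℝ × ℝ) : (gateV t).conjTranspose * gateV t = 1 := by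
  have hexp : Complex.exp (Complex.I * (t.2 / 2)) * Complex.exp (-(Complex.I * (t.2 / 2))) = 1 := by
    rw [← Complex.exp_add]; simp
  have hcs : (Complex.cos t.1) ^ 2 + (Complex.sin t.1) ^ 2 = 1 := Complex.cos_sq_add_sin_sq _
  have hc : ∀ a b, star (gateV t a b) = ((sgR a b * (Real.cos t.1 ^ (cR a b) *
      Real.sin t.1 ^ (sR a b)) : ℝ) : ℂ) * Complex.exp (-(Complex.I * (eR b) * (t.2 / 2))) :=
    gateV_conj t
  ext i j
  rw [Matrix.mul_apply, Fin.sum_univ_two, Matrix.conjTranspose_apply, Matrix.conjTranspose_apply,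
    hc, hc, gateV_apply, gateV_apply]
  fin_cases i <;> fin_cases j <;> simp [sgR, cR, sR, eR]
  · linear_combination (Complex.cos t.1 ^ 2 + Complex.sin t.1 ^ 2) * hexp + hcs
  · ring
  · ring
  · linear_combination (Complex.cos t.1 ^ 2 + Complex.sin t.1 ^ 2) * hexp + hcs

lemma layerU_eq {K l : ℕ} (hl : l < K) (w : LowMode K l → ℝ × ℝ) :
    layerU K l w = (Matrix.blockDiagonal fun g => gateV (w g)).submatrix (modeEquiv hl)
      (modeEquiv hl) := by
  ext i j
  rw [Matrix.submatrix_apply, Matrix.blockDiagonal_apply]
  show (if lowMode l i = lowMode l j then gateV (w (lowMode l j)) (digit l i) (digit l j) else 0) =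
    if lowMode l i = lowMode l j then gateV (w (lowMode l i)) (digit l i) (digit l j) else 0
  split_ifs with h
  · rw [h]
  · rfl

lemma layerU_unitary {K l : ℕ} (hl : l < K) (w : LowMode K l → ℝ × ℝ) :
    (layerU K l w).conjTranspose * layerU K l w = 1 := by
  rw [layerU_eq hl, Matrix.conjTranspose_submatrix, Matrix.submatrix_mul_equiv,
    Matrix.blockDiagonal_conjTranspose, ← Matrix.blockDiagonal_mul]
  have : (fun g => (gateV (w g)).conjTranspose * gateV (w g)) = fun _ => 1 := by
    funext g; exact gateV_unitary _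
  rw [this]
  have h1 : Matrix.blockDiagonal (fun _ : LowMode K l => (1 : Matrix (Fin 2) (Fin 2) ℂ)) = 1 :=
    Matrix.blockDiagonal_one
  rw [h1, Matrix.submatrix_one_equiv]

lemma layerU_continuous (K l : ℕ) (i j : Fin (2 ^ K)) : Continuous fun w => layerU K l w i j := by
  unfold layerU
  simp only [Matrix.of_apply]
  by_cases h : lowMode l i = lowMode l j
  · simp only [h, if_true]
    exact (gateV_continuous _ _).comp (continuous_apply _)
  · simp only [h, if_false]
    exact continuous_const

/-- entries of a matrix with `Aᴴ A = 1` are bounded by one -/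
lemma norm_entry_le {n : Type*} [Fintype n] [DecidableEq n] (A : Matrix n n ℂ)
    (h : A.conjTranspose * A = 1) (i j : n) : ‖A i j‖ ≤ 1 := by
  have h1 := congrFun (congrFun h j) j
  rw [Matrix.mul_apply, Matrix.one_apply_eq] at h1
  simp only [Matrix.conjTranspose_apply] at h1
  have h2 : ∑ k, ‖A k j‖ ^ 2 = 1 := by
    have h3 : ((∑ k, ‖A k j‖ ^ 2 : ℝ) : ℂ) = 1 := by
      rw [← h1]
      push_cast
      refine Finset.sum_congr rfl fun k _ => ?_
      rw [Complex.star_def, Complex.conj_mul']
    exact_mod_cast h3
  have h4 : ‖A i j‖ ^ 2 ≤ 1 := by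
    rw [← h2]
    exact Finset.single_le_sum (f := fun k => ‖A k j‖ ^ 2) (fun k _ => by positivity)
      (Finset.mem_univ i)
  nlinarith [norm_nonneg (A i j)]

/-- Integrability of bounded continuous functions. -/
lemma integrable_of_cont_bound {α : Type*} [TopologicalSpace α] [MeasurableSpace α]
    [OpensMeasurableSpace α] [SecondCountableTopology α] (μ : Measure α) [IsFiniteMeasure μ]
    (f : α → ℂ) (hf : Continuous f) (C : ℝ) (hC : ∀ x, ‖f x‖ ≤ C) : Integrable f μ :=
  Integrable.of_bound hf.aestronglyMeasurable C (Filter.Eventually.of_forall hC)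

/-! ### moments of one layer -/

/-- the product of the four entries -/
noncomputable def S4 {n : Type*} (U : Matrix n n ℂ) (i j k l a b c d : n) : ℂ :=
  star (U i a) * star (U j b) * (U k c * U l d)

lemma sum_modes {K l : ℕ} (hl : l < K) (f : Fin (2 ^ K) → ℂ) :
    ∑ i, f i = ∑ a : Fin 2, ∑ g : LowMode K l, f (mode hl (a, g)) := by
  rw [← Equiv.sum_comp (modeEquiv hl).symm f, Fintype.sum_prod_type]
  rfl

lemma layerU_mode {K l : ℕ} (hl : l < K) (w : LowMode K l → ℝ × ℝ) (α : Fin 2) (g : LowMode K l)
    (a : Fin (2 ^ K)) : layerU K l w (mode hl (α, g)) a =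
      if g = lowMode l a then gateV (w g) α (digit l a) else 0 := by
  unfold layerU
  simp only [Matrix.of_apply, lowMode_mode, digit_mode]
  split_ifs with h
  · rw [h]
  · rfl

/-- reduction of the quartic sum to the two gates involved -/
lemma sum_reduce {K l : ℕ} (hl : l < K) (w : LowMode K l → ℝ × ℝ) (F : Fin (2 ^ K) → Fin (2 ^ K) → ℂ)
    (a b c d : Fin (2 ^ K)) :
    ∑ i, ∑ j, F i j * S4 (layerU K l w) i j i j a b c d =
      if lowMode l c = lowMode l a ∧ lowMode l d = lowMode l b then
        ∑ α : Fin 2, ∑ β : Fin 2, F (mode hl (α, lowMode l a)) (mode hl (β, lowMode l b)) *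
          ((star (gateV (w (lowMode l a)) α (digit l a)) * gateV (w (lowMode l a)) α (digit l c)) *
           (star (gateV (w (lowMode l b)) β (digit l b)) * gateV (w (lowMode l b)) β (digit l d)))
      else 0 := by
  rw [sum_modes hl]
  simp_rw [sum_modes hl (fun j => F _ j * _)]
  have h1 : ∀ (α : Fin 2) (g : LowMode K l) (β : Fin 2) (h : LowMode K l),
      F (mode hl (α, g)) (mode hl (β, h)) *
        S4 (layerU K l w) (mode hl (α, g)) (mode hl (β, h)) (mode hl (α, g)) (mode hl (β, h)) a b c d
      = if g = lowMode l a then (if h = lowMode l b then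
          (if lowMode l c = lowMode l a ∧ lowMode l d = lowMode l b then
          F (mode hl (α, lowMode l a)) (mode hl (β, lowMode l b)) *
          ((star (gateV (w (lowMode l a)) α (digit l a)) * gateV (w (lowMode l a)) α (digit l c)) *
           (star (gateV (w (lowMode l b)) β (digit l b)) * gateV (w (lowMode l b)) β (digit l d)))
           else 0) else 0) else 0 := by
    intro α g β h
    unfold S4
    rw [layerU_mode, layerU_mode, layerU_mode, layerU_mode]
    by_cases hg : g = lowMode l a
    · rw [if_pos hg, if_pos hg]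
      by_cases hh : h = lowMode l b
      · rw [if_pos hh, if_pos hh]
        subst hg hh
        by_cases hc : lowMode l c = lowMode l a ∧ lowMode l d = lowMode l b
        · rw [if_pos hc, if_pos hc.1.symm, if_pos hc.2.symm]
          ring
        · rw [if_neg hc]
          by_cases hc1 : lowMode l a = lowMode l c
          · have hc2 : ¬ lowMode l b = lowMode l d := fun h => hc ⟨hc1.symm, h.symm⟩
            rw [if_neg hc2]; ring
          · rw [if_neg hc1]; ring
      · rw [if_neg hh, if_neg hh]; simp
    · rw [if_neg hg, if_neg hg]; simp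
  simp_rw [h1]
  split_ifs with hc
  · refine Finset.sum_congr rfl fun α _ => ?_
    rw [Finset.sum_eq_single (lowMode l a)]
    · simp only [if_true]
      refine Finset.sum_congr rfl fun β _ => ?_
      rw [Finset.sum_eq_single (lowMode l b)]
      · simp
      · intro h _ hh; simp [hh]
      · intro h; exact absurd (Finset.mem_univ _) h
    · intro g _ hg
      simp [hg]
    · intro h; exact absurd (Finset.mem_univ _) h
  · simp

lemma gate_sum_unitary (t : ℝ × ℝ) (p q : Fin 2) :
    ∑ α : Fin 2, star (gateV t α p) * gateV t α q = if p = q then 1 else 0 := by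
  have h := congrFun (congrFun (gateV_unitary t) p) q
  rw [Matrix.mul_apply, Matrix.one_apply] at h
  simpa [Matrix.conjTranspose_apply] using h

end Pool.Agent.Work.MP_93fab9_mp
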