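import Mathlib
import Pool.Agent.Work.MP_93fab9_mp.Layer

set_option autoImplicit false

namespace Pool.Agent.Work.MP_93fab9_mp

open MeasureTheory

lemma gateV_norm (t : ℝ × ℝ) (a b : Fin 2) : ‖gateV t a b‖ ≤ 1 :=
  norm_entry_le _ (gateV_unitary t) a b

lemma integral_two {K l : ℕ} {g g' : LowMode K l} (hg : g ≠ g') (f h : ℝ × ℝ → ℂ) :
    ∫ w, f (w g) * h (w g') ∂(layerMeasure K l) = (∫ t, f t ∂unif2) * (∫ t, h t ∂unif2) := by
  have h0 := integral_fintype_prod_eq_prod (𝕜 := ℂ) (ι := LowMode K l) (E := fun _ => ℝ × ℝ)
    (fun i => if i = g then f else if i = g' then h else fun _ => 1) (μ := fun _ => unif2)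
  have h1 : ∀ w : LowMode K l → ℝ × ℝ,
      ∏ i, (if i = g then f else if i = g' then h else fun _ => 1) (w i) = f (w g) * h (w g') := by
    intro w
    rw [Finset.prod_eq_mul g g' hg]
    · simp [hg.symm]
    · rintro c - ⟨hc1, hc2⟩
      simp [hc1, hc2]
    · intro h; exact absurd (Finset.mem_univ _) h
    · intro h; exact absurd (Finset.mem_univ _) h
  have h2 : ∏ i : LowMode K l, ∫ t, (if i = g then f else if i = g' then h else fun _ => 1) t ∂unif2
      = (∫ t, f t ∂unif2) * (∫ t, h t ∂unif2) := by
    rw [Finset.prod_eq_mul g g' hg]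
    · simp [hg.symm]
    · rintro c - ⟨hc1, hc2⟩
      simp [hc1, hc2]
    · intro h; exact absurd (Finset.mem_univ _) h
    · intro h; exact absurd (Finset.mem_univ _) h
  rw [← h2, ← h0]
  unfold layerMeasure
  refine integral_congr_ae (Filter.Eventually.of_forall fun w => ?_)
  exact (h1 w).symm

lemma integral_one {K l : ℕ} (g : LowMode K l) (f : ℝ × ℝ → ℂ) (hf : Continuous f) :
    ∫ w, f (w g) ∂(layerMeasure K l) = ∫ t, f t ∂unif2 := by
  unfold layerMeasure
  exact integral_comp_eval hf.aestronglyMeasurable

lemma gate2_continuous (α p q : Fin 2) :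
    Continuous fun t => star (gateV t α p) * gateV t α q := by
  have h1 := gateV_continuous α p
  have h2 := gateV_continuous α q
  fun_prop

lemma gate2_norm (t : ℝ × ℝ) (α p q : Fin 2) : ‖star (gateV t α p) * gateV t α q‖ ≤ 1 := by
  rw [norm_mul, norm_star]
  exact mul_le_one₀ (gateV_norm _ _ _) (norm_nonneg _) (gateV_norm _ _ _)

/-- Two distinct gates. -/
lemma moment_far {K l : ℕ} (hl : l < K) (F : Fin (2 ^ K) → Fin (2 ^ K) → ℂ)
    (a b c d : Fin (2 ^ K)) (hab : lowMode l a ≠ lowMode l b) :
    ∫ w, (∑ i, ∑ j, F i j * S4 (layerU K l w) i j i j a b c d) ∂(layerMeasure K l) =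
      1 / 4 * (∑ α : Fin 2, ∑ β : Fin 2, F (mode hl (α, lowMode l a)) (mode hl (β, lowMode l b))) *
        (if a = c ∧ b = d then 1 else 0) := by
  simp_rw [sum_reduce hl]
  by_cases hc : lowMode l c = lowMode l a ∧ lowMode l d = lowMode l b
  · simp only [if_pos hc]
    have hint : ∀ α β : Fin 2, Integrable (fun w : LowMode K l → ℝ × ℝ =>
        F (mode hl (α, lowMode l a)) (mode hl (β, lowMode l b)) *
          ((star (gateV (w (lowMode l a)) α (digit l a)) * gateV (w (lowMode l a)) α (digit l c)) *
           (star (gateV (w (lowMode l b)) β (digit l b)) * gateV (w (lowMode l b)) β (digit l d))))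
        (layerMeasure K l) := by
      intro α β
      apply integrable_of_cont_bound _ _ _ (‖F (mode hl (α, lowMode l a)) (mode hl (β, lowMode l b))‖)
      · intro w
        rw [norm_mul]
        apply mul_le_of_le_one_right (norm_nonneg _)
        rw [norm_mul]
        exact mul_le_one₀ (gate2_norm _ _ _ _) (norm_nonneg _) (gate2_norm _ _ _ _)
      · apply Continuous.mul continuous_const
        apply Continuous.mul
        · exact (gate2_continuous α (digit l a) (digit l c)).comp (continuous_apply (lowMode l a))
        · exact (gate2_continuous β (digit l b) (digit l d)).comp (continuous_apply (lowMode l b))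
    rw [integral_finsetSum _ (fun α _ => integrable_finsetSum _ (fun β _ => hint α β))]
    have h1 : ∀ α : Fin 2, ∫ w, (∑ β : Fin 2,
        F (mode hl (α, lowMode l a)) (mode hl (β, lowMode l b)) *
          ((star (gateV (w (lowMode l a)) α (digit l a)) * gateV (w (lowMode l a)) α (digit l c)) *
           (star (gateV (w (lowMode l b)) β (digit l b)) * gateV (w (lowMode l b)) β (digit l d))))
           ∂(layerMeasure K l) =
        ∑ β : Fin 2, F (mode hl (α, lowMode l a)) (mode hl (β, lowMode l b)) *
          ((if digit l a = digit l c then 1 / 2 else 0) * (if digit l b = digit l d then 1 / 2 else 0)) := by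
      intro α
      rw [integral_finsetSum _ (fun β _ => hint α β)]
      refine Finset.sum_congr rfl fun β _ => ?_
      rw [integral_const_mul, integral_two hab
        (fun t => star (gateV t α (digit l a)) * gateV t α (digit l c))
        (fun t => star (gateV t β (digit l b)) * gateV t β (digit l d)), gateV_second, gateV_second]
    rw [Finset.sum_congr rfl (fun α _ => h1 α)]
    have h2 : (if a = c ∧ b = d then (1 : ℂ) else 0) =
        (if digit l a = digit l c then 1 else 0) * (if digit l b = digit l d then 1 else 0) := by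
      have e1 : (a = c ∧ b = d) ↔ (digit l a = digit l c ∧ digit l b = digit l d) := by
        rw [eq_iff hl a c, eq_iff hl b d, hc.1, hc.2]; simp
      rw [if_congr e1 rfl rfl]
      by_cases h3 : digit l a = digit l c <;> by_cases h4 : digit l b = digit l d <;> simp [h3, h4]
    rw [h2, Finset.mul_sum, Finset.sum_mul]
    refine Finset.sum_congr rfl fun α _ => ?_
    rw [Finset.mul_sum, Finset.sum_mul]
    refine Finset.sum_congr rfl fun β _ => ?_
    by_cases h3 : digit l a = digit l c <;> by_cases h4 : digit l b = digit l d <;> simp [h3, h4] <;> ring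
  · simp only [if_neg hc, integral_zero]
    rw [if_neg, mul_zero]
    rintro ⟨rfl, rfl⟩
    exact hc ⟨rfl, rfl⟩

/-- pointwise identity for a single gate -/
lemma gate_pointwise (t : ℝ × ℝ) (p0 p1 : ℂ) (a b c d : Fin 2) :
    ∑ α : Fin 2, ∑ β : Fin 2, (if α = β then p0 else p1) *
        ((star (gateV t α a) * gateV t α c) * (star (gateV t β b) * gateV t β d)) +
    ∑ α : Fin 2, ∑ β : Fin 2, (if α = β then p0 else p1) *
        ((star (gateV t α a) * gateV t α d) * (star (gateV t β b) * gateV t β c)) =
    p1 * ((if a = c then 1 else 0) * (if b = d then 1 else 0) +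
      (if a = d then 1 else 0) * (if b = c then 1 else 0)) +
    2 * (p0 - p1) * ∑ α : Fin 2, star (gateV t α a) * star (gateV t α b) *
      (gateV t α c * gateV t α d) := by
  rw [← gate_sum_unitary t a c, ← gate_sum_unitary t b d, ← gate_sum_unitary t a d,
    ← gate_sum_unitary t b c]
  simp only [Fin.sum_univ_two]
  simp
  ring

lemma fourth_continuous (α a b c d : Fin 2) : Continuous fun t => star (gateV t α a) *
    star (gateV t α b) * (gateV t α c * gateV t α d) := by
  have h1 := gateV_continuous α a
  have h2 := gateV_continuous α b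
  have h3 := gateV_continuous α c
  have h4 := gateV_continuous α d
  fun_prop

lemma fourth_norm (t : ℝ × ℝ) (α a b c d : Fin 2) : ‖star (gateV t α a) *
    star (gateV t α b) * (gateV t α c * gateV t α d)‖ ≤ 1 := by
  rw [norm_mul, norm_mul, norm_mul, norm_star, norm_star]
  exact mul_le_one₀ (mul_le_one₀ (gateV_norm _ _ _) (norm_nonneg _) (gateV_norm _ _ _))
    (mul_nonneg (norm_nonneg _) (norm_nonneg _))
    (mul_le_one₀ (gateV_norm _ _ _) (norm_nonneg _) (gateV_norm _ _ _))

/-- A single gate. -/
lemma moment_near {K l : ℕ} (hl : l < K) (F : Fin (2 ^ K) → Fin (2 ^ K) → ℂ)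
    (a b c d : Fin (2 ^ K)) (hab : lowMode l a = lowMode l b) (p0 p1 : ℂ)
    (hF : ∀ α β : Fin 2, F (mode hl (α, lowMode l a)) (mode hl (β, lowMode l a)) =
      if α = β then p0 else p1) :
    ∫ w, ((∑ i, ∑ j, F i j * S4 (layerU K l w) i j i j a b c d) +
      (∑ i, ∑ j, F i j * S4 (layerU K l w) i j i j a b d c)) ∂(layerMeasure K l) =
      (if a = b then 3 / 4 * p0 + 1 / 4 * p1 else 1 / 2 * p0 + 1 / 2 * p1) *
        ((if a = c ∧ b = d then 1 else 0) + (if a = d ∧ b = c then 1 else 0)) := by
  simp_rw [sum_reduce hl, ← hab]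
  by_cases hc : lowMode l c = lowMode l a ∧ lowMode l d = lowMode l a
  · have hc' : lowMode l d = lowMode l a ∧ lowMode l c = lowMode l a := ⟨hc.2, hc.1⟩
    simp only [if_pos hc, if_pos hc', hF]
    simp_rw [gate_pointwise]
    rw [integral_add, integral_const, integral_const_mul, integral_finsetSum]
    · have h1 : ∀ α : Fin 2, ∫ w : LowMode K l → ℝ × ℝ, star (gateV (w (lowMode l a)) α (digit l a)) *
          star (gateV (w (lowMode l a)) α (digit l b)) *
          (gateV (w (lowMode l a)) α (digit l c) * gateV (w (lowMode l a)) α (digit l d))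
          ∂(layerMeasure K l) = if digit l a = digit l b then
            (if digit l a = digit l c ∧ digit l a = digit l d then 3 / 8 else 0)
            else (if (digit l a = digit l c ∧ digit l b = digit l d) ∨
              (digit l a = digit l d ∧ digit l b = digit l c) then 1 / 8 else 0) := by
        intro α
        rw [integral_one (lowMode l a) (fun t => star (gateV t α (digit l a)) *
          star (gateV t α (digit l b)) * (gateV t α (digit l c) * gateV t α (digit l d)))
          (fourth_continuous _ _ _ _ _), gateV_fourth]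
      rw [Finset.sum_congr rfl (fun α _ => h1 α)]
      have e0 : (a = b) ↔ (digit l a = digit l b) := by
        rw [eq_iff hl a b, ← hab]; simp
      have e1 : (a = c ∧ b = d) ↔ (digit l a = digit l c ∧ digit l b = digit l d) := by
        rw [eq_iff hl a c, eq_iff hl b d, hc.1, hc.2, ← hab]; simp
      have e2 : (a = d ∧ b = c) ↔ (digit l a = digit l d ∧ digit l b = digit l c) := by
        rw [eq_iff hl a d, eq_iff hl b c, hc.1, hc.2, ← hab]; simp
      rw [if_congr e0 rfl rfl, if_congr e1 rfl rfl, if_congr e2 rfl rfl]
      simp only [Fin.sum_univ_two, probReal_univ, one_smul]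
      generalize digit l a = a'
      generalize digit l b = b'
      generalize digit l c = c'
      generalize digit l d = d'
      fin_cases a' <;> fin_cases b' <;> fin_cases c' <;> fin_cases d' <;> simp <;> ring
    · intro α _
      apply integrable_of_cont_bound _ _ _ 1
      · intro w; exact fourth_norm _ _ _ _ _ _
      · exact (fourth_continuous _ _ _ _ _).comp (continuous_apply (lowMode l a))
    · exact integrable_const _
    · apply Integrable.const_mul
      apply integrable_finsetSum
      intro α _
      apply integrable_of_cont_bound _ _ _ 1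
      · intro w; exact fourth_norm _ _ _ _ _ _
      · exact (fourth_continuous _ _ _ _ _).comp (continuous_apply (lowMode l a))
  · have hc' : ¬ (lowMode l d = lowMode l a ∧ lowMode l c = lowMode l a) := fun h => hc ⟨h.2, h.1⟩
    simp only [if_neg hc, if_neg hc', add_zero, integral_zero]
    have n1 : ¬ (a = c ∧ b = d) := by
      rintro ⟨h1, h2⟩
      exact hc ⟨by rw [h1], by rw [← h2, ← hab]⟩
    have n2 : ¬ (a = d ∧ b = c) := by
      rintro ⟨h1, h2⟩
      exact hc ⟨by rw [← h2, ← hab], by rw [h1]⟩
    rw [if_neg n1, if_neg n2]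
    simp

end Pool.Agent.Work.MP_93fab9_mp
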