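import Mathlib
import Pool.Agent.Work.MP_93fab9_mp.Moment

set_option autoImplicit false

namespace Pool.Agent.Work.MP_93fab9_mp

open MeasureTheory Matrix
open scoped Kronecker

variable {n : Type*} [Fintype n] [DecidableEq n]

/-- the superoperator `U ↦ conj U ⊗ conj U ⊗ U ⊗ U` -/
noncomputable def Smat (U : Matrix n n ℂ) : Matrix ((n × n) × (n × n)) ((n × n) × (n × n)) ℂ :=
  (U.map (starRingEnd ℂ) ⊗ₖ U.map (starRingEnd ℂ)) ⊗ₖ (U ⊗ₖ U)

lemma Smat_apply (U : Matrix n n ℂ) (i j k l a b c d : n) :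
    Smat U ((i, j), (k, l)) ((a, b), (c, d)) = S4 U i j k l a b c d := rfl

lemma Smat_one : Smat (1 : Matrix n n ℂ) = 1 := by
  unfold Smat
  rw [Matrix.map_one _ (map_zero _) (map_one _), Matrix.one_kronecker_one,
    Matrix.one_kronecker_one]

lemma Smat_mul (A B : Matrix n n ℂ) : Smat (A * B) = Smat A * Smat B := by
  unfold Smat
  rw [Matrix.map_mul, Matrix.mul_kronecker_mul, Matrix.mul_kronecker_mul,
    Matrix.mul_kronecker_mul]

/-- `Smat` as a monoid homomorphism -/
noncomputable def SmatHom (n : Type*) [Fintype n] [DecidableEq n] :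
    Matrix n n ℂ →* Matrix ((n × n) × (n × n)) ((n × n) × (n × n)) ℂ where
  toFun := Smat
  map_one' := Smat_one
  map_mul' := Smat_mul

/-- the vectorized observable -/
noncomputable def vecX (φ : n → n → ℂ) : (n × n) × (n × n) → ℂ := fun p =>
  φ p.1.1 p.1.2 / 2 * ((if p.1.1 = p.2.1 ∧ p.1.2 = p.2.2 then 1 else 0) +
    (if p.1.1 = p.2.2 ∧ p.1.2 = p.2.1 then 1 else 0))

lemma vecX_sum (φ : n → n → ℂ) (G : n → n → n → n → ℂ) :
    ∑ p : (n × n) × (n × n), vecX φ p * G p.1.1 p.1.2 p.2.1 p.2.2 =
      ∑ i, ∑ j, φ i j / 2 * (G i j i j + G i j j i) := by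
  rw [Fintype.sum_prod_type, Fintype.sum_prod_type]
  refine Finset.sum_congr rfl fun i _ => Finset.sum_congr rfl fun j _ => ?_
  rw [Fintype.sum_prod_type]
  unfold vecX
  simp only
  have h1 : ∀ k l : n, φ i j / 2 * ((if i = k ∧ j = l then (1 : ℂ) else 0) +
      (if i = l ∧ j = k then 1 else 0)) * G i j k l =
      φ i j / 2 * (if i = k then (if j = l then G i j k l else 0) else 0) +
      φ i j / 2 * (if j = k then (if i = l then G i j k l else 0) else 0) := by
    intro k l
    simp only [ite_and]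
    split_ifs <;> ring
  simp_rw [h1, Finset.sum_add_distrib, ← Finset.mul_sum]
  simp [mul_add]

lemma S4_swap (U : Matrix n n ℂ) (i j k l a b c d : n) :
    S4 U i j k l a b c d = S4 U i j l k a b d c := by
  unfold S4; ring

lemma S4_norm (U : Matrix n n ℂ) (hU : U.conjTranspose * U = 1) (i j k l a b c d : n) :
    ‖S4 U i j k l a b c d‖ ≤ 1 := by
  unfold S4
  rw [norm_mul, norm_mul, norm_mul, norm_star, norm_star]
  have h := norm_entry_le U hU
  exact mul_le_one₀ (mul_le_one₀ (h _ _) (norm_nonneg _) (h _ _))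
    (mul_nonneg (norm_nonneg _) (norm_nonneg _)) (mul_le_one₀ (h _ _) (norm_nonneg _) (h _ _))

lemma S4_integrable {K l : ℕ} (hl : l < K) (i j k m a b c d : Fin (2 ^ K)) :
    Integrable (fun w => S4 (layerU K l w) i j k m a b c d) (layerMeasure K l) := by
  apply integrable_of_cont_bound _ _ _ 1
  · intro w; exact S4_norm _ (layerU_unitary hl w) _ _ _ _ _ _ _ _
  · unfold S4
    have h := layerU_continuous K l
    have h1 := h i a
    have h2 := h j b
    have h3 := h k c
    have h4 := h m d
    fun_prop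

/-- expectation of a layer superoperator -/
noncomputable def ES (K l : ℕ) :
    Matrix ((Fin (2 ^ K) × Fin (2 ^ K)) × (Fin (2 ^ K) × Fin (2 ^ K)))
      ((Fin (2 ^ K) × Fin (2 ^ K)) × (Fin (2 ^ K) × Fin (2 ^ K))) ℂ :=
  Matrix.of fun p q => ∫ w, Smat (layerU K l w) p q ∂(layerMeasure K l)

section
variable {K : ℕ} {x r : ℝ} (hx : 0 < x) (hr : r = (3 * x - 1) / (2 * x)) (hr0 : 0 < r)
  (hrK : r ^ K = x)

include hx hr hr0 hrK

lemma layer_step {l : ℕ} (hl : l < K) :
    vecX (fun i j : Fin (2 ^ K) => ((phi K x r (l + 1) i j : ℝ) : ℂ)) ᵥ* ES K l =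
      ((r / 2 : ℝ) : ℂ) • vecX (fun i j : Fin (2 ^ K) => ((phi K x r l i j : ℝ) : ℂ)) := by
  funext q
  obtain ⟨⟨a, b⟩, ⟨c, d⟩⟩ := q
  set F : Fin (2 ^ K) → Fin (2 ^ K) → ℂ := fun i j => ((phi K x r (l + 1) i j : ℝ) : ℂ) with hF
  have h1 : (vecX F ᵥ* ES K l) ((a, b), (c, d)) =
      ∑ i, ∑ j, F i j / 2 * ((∫ w, S4 (layerU K l w) i j i j a b c d ∂(layerMeasure K l)) +
        (∫ w, S4 (layerU K l w) i j j i a b c d ∂(layerMeasure K l))) := by
    rw [← vecX_sum F (fun i j k m => ∫ w, S4 (layerU K l w) i j k m a b c d ∂(layerMeasure K l))]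
    rfl
  have h2 : ∑ i, ∑ j, F i j / 2 * ((∫ w, S4 (layerU K l w) i j i j a b c d ∂(layerMeasure K l)) +
        (∫ w, S4 (layerU K l w) i j j i a b c d ∂(layerMeasure K l))) =
      1 / 2 * ∫ w, ((∑ i, ∑ j, F i j * S4 (layerU K l w) i j i j a b c d) +
      (∑ i, ∑ j, F i j * S4 (layerU K l w) i j i j a b d c)) ∂(layerMeasure K l) := by
    have hi1 : ∀ (c d : Fin (2 ^ K)), ∀ i ∈ (Finset.univ : Finset (Fin (2 ^ K))),
        Integrable (fun w => ∑ j, F i j * S4 (layerU K l w) i j i j a b c d)
        (layerMeasure K l) := fun c d i _ => integrable_finsetSum _ fun j _ =>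
          (S4_integrable hl i j i j a b c d).const_mul _
    rw [integral_add (integrable_finsetSum _ (hi1 c d)) (integrable_finsetSum _ (hi1 d c)),
      integral_finsetSum _ (hi1 c d), integral_finsetSum _ (hi1 d c), ← Finset.sum_add_distrib,
      Finset.mul_sum]
    refine Finset.sum_congr rfl fun i _ => ?_
    rw [integral_finsetSum _ (fun j _ => (S4_integrable hl i j i j a b c d).const_mul _),
      integral_finsetSum _ (fun j _ => (S4_integrable hl i j i j a b d c).const_mul _),
      ← Finset.sum_add_distrib, Finset.mul_sum]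
    refine Finset.sum_congr rfl fun j _ => ?_
    rw [integral_const_mul, integral_const_mul]
    have e : ∫ w, S4 (layerU K l w) i j j i a b c d ∂(layerMeasure K l) =
        ∫ w, S4 (layerU K l w) i j i j a b d c ∂(layerMeasure K l) := by
      congr 1; funext w; exact S4_swap _ _ _ _ _ _ _ _ _
    rw [e]; ring
  rw [h1, h2]
  have hb0 : ∀ g : LowMode K l, (mode hl ((0 : Fin 2), g) : ℕ).testBit l = false := by
    intro g; rw [mode_testBit]; simp
  have hb1 : ∀ g : LowMode K l, (mode hl ((1 : Fin 2), g) : ℕ).testBit l = true := by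
    intro g; rw [mode_testBit]; simp
  have hsame : ∀ (i : Fin (2 ^ K)) (α : Fin 2), same K l i (mode hl (α, lowMode l i)) := by
    intro i α
    rw [← low_eq_iff_same, lowMode_mode]
  by_cases hab : lowMode l a = lowMode l b
  · -- a single gate
    set g := lowMode l a with hg
    have hFd : ∀ α β : Fin 2, F (mode hl (α, g)) (mode hl (β, g)) =
        if α = β then ((phi K x r (l + 1) (mode hl ((0 : Fin 2), g)) (mode hl ((0 : Fin 2), g)) : ℝ) : ℂ)
        else ((phi K x r (l + 1) (mode hl ((0 : Fin 2), g)) (mode hl ((1 : Fin 2), g)) : ℝ) : ℂ) := by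
      intro α β
      rw [hF]
      fin_cases α <;> fin_cases β
      · simp
      · simp
      · simp only [Fin.mk_one, Fin.zero_eta, one_ne_zero, if_false]
        rw [phi_comm]
      · simp only [Fin.mk_one, if_true]
        unfold phi
        rw [lev_self, lev_self]
    rw [moment_near hl F a b c d hab _ _ hFd]
    show _ = ((r / 2 : ℝ) : ℂ) * (((phi K x r l a b : ℝ) : ℂ) / 2 * _)
    have hphi00 : phi K x r (l + 1) (mode hl ((0 : Fin 2), g)) (mode hl ((0 : Fin 2), g)) = x - 1 := by
      unfold phi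
      rw [lev_self]; ring
    have hphi01 : phi K x r (l + 1) (mode hl ((0 : Fin 2), g)) (mode hl ((1 : Fin 2), g)) =
        (x + 1) / x - 2 := phi_succ_ne hrK hl (by rw [hb0, hb1]; simp)
    rw [hphi00, hphi01]
    by_cases hab' : a = b
    · rw [if_pos hab']
      have h3 := step_diag hx hr hr0 hrK (l := l) (i := a) (i' := mode hl ((if (a : ℕ).testBit l then 0 else 1 : Fin 2), g)) hl (by
        rw [mode_testBit]
        by_cases h : (a : ℕ).testBit l = true
        · simp [h]
        · simp [h])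
      have h4 : phi K x r (l + 1) a (mode hl ((if (a : ℕ).testBit l then 0 else 1 : Fin 2), g)) =
          (x + 1) / x - 2 := phi_succ_ne hrK hl (by
        rw [mode_testBit]
        by_cases h : (a : ℕ).testBit l = true
        · simp [h]
        · simp [h])
      have h5 : phi K x r (l + 1) a a = x - 1 := by
        unfold phi; rw [lev_self]; ring
      rw [h4, h5] at h3
      rw [← hab']
      have h6 : ((3 / 4 * (x - 1) + 1 / 4 * ((x + 1) / x - 2) : ℝ) : ℂ) =
          ((r / 2 * phi K x r l a a : ℝ) : ℂ) := by rw [h3]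
      push_cast at h6 ⊢
      rw [h6]; ring
    · rw [if_neg hab']
      have hbit : (a : ℕ).testBit l ≠ (b : ℕ).testBit l := by
        intro h
        apply hab'
        apply fin_ext_testBit
        intro b' hb'
        by_cases hbl : b' = l
        · rw [hbl, h]
        · exact (low_eq_iff_same a b).1 hab b' hb' hbl
      have h3 := step_off hx hr hr0 hrK hl hbit ((low_eq_iff_same a b).1 hab)
      have h4 : phi K x r (l + 1) a b = (x + 1) / x - 2 := phi_succ_ne hrK hl hbit
      have h5 : phi K x r (l + 1) a a = x - 1 := by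
        unfold phi; rw [lev_self]; ring
      rw [h4, h5] at h3
      have h6 : ((1 / 2 * (x - 1) + 1 / 2 * ((x + 1) / x - 2) : ℝ) : ℂ) =
          ((r / 2 * phi K x r l a b : ℝ) : ℂ) := by rw [h3]
      push_cast at h6 ⊢
      rw [h6]; ring
  · -- two distinct gates
    have hi1 : ∀ (c d : Fin (2 ^ K)),
        Integrable (fun w => ∑ i, ∑ j, F i j * S4 (layerU K l w) i j i j a b c d)
        (layerMeasure K l) := fun c d => integrable_finsetSum _ fun i _ =>
          integrable_finsetSum _ fun j _ => (S4_integrable hl i j i j a b c d).const_mul _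
    rw [integral_add (hi1 c d) (hi1 d c), moment_far hl F a b c d hab, moment_far hl F a b d c hab]
    have h3 := step_far hx hr hr0 hrK (l := l) (i := a) (j := b) hl
      (fun h => hab ((low_eq_iff_same a b).2 h))
      (mode hl ((0 : Fin 2), lowMode l a)) (mode hl ((1 : Fin 2), lowMode l a))
      (mode hl ((0 : Fin 2), lowMode l b)) (mode hl ((1 : Fin 2), lowMode l b))
      (hsame _ _) (hsame _ _) (hsame _ _) (hsame _ _) (hb0 _) (hb1 _) (hb0 _) (hb1 _)
    have h6 := congrArg (fun t : ℝ => (t : ℂ)) h3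
    simp only [Fin.sum_univ_two]
    show _ = ((r / 2 : ℝ) : ℂ) * (((phi K x r l a b : ℝ) : ℂ) / 2 * _)
    rw [hF]
    push_cast at h6 ⊢
    linear_combination (1 / 2 * ((if a = c ∧ b = d then (1 : ℂ) else 0) +
      (if a = d ∧ b = c then (1 : ℂ) else 0))) * h6

end

end Pool.Agent.Work.MP_93fab9_mp
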