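import Mathlib
import Pool.Agent.Work.MP_93fab9_mp.Super

set_option autoImplicit false

namespace Pool.Agent.Work.MP_93fab9_mp

open MeasureTheory Matrix
open scoped Kronecker

/-- Expectation of an ordered product of independent random matrices. -/
lemma indep_prod {N : Type*} [Fintype N] [DecidableEq N] : ∀ (K : ℕ) (α : Fin K → Type)
    [∀ i, MeasurableSpace (α i)] (μ : ∀ i, Measure (α i)) [∀ i, IsProbabilityMeasure (μ i)]
    (A : ∀ i, α i → Matrix N N ℂ) (_ : ∀ i p q, Integrable (fun x => A i x p q) (μ i)) (p q : N),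
    Integrable (fun w : ∀ i, α i => ((List.ofFn fun i => A i (w i)).reverse.prod) p q)
      (Measure.pi μ) ∧
    ∫ w, ((List.ofFn fun i => A i (w i)).reverse.prod) p q ∂(Measure.pi μ) =
      ((List.ofFn fun i => (Matrix.of fun p q => ∫ x, A i x p q ∂(μ i) :
        Matrix N N ℂ)).reverse.prod) p q := by
  intro K
  induction K with
  | zero =>
    intro α _ μ _ A _ p q
    refine ⟨?_, ?_⟩
    · simp
    · simp
  | succ K ih =>
    intro α _ μ _ A hA p q
    have ih' := ih (fun i => α i.succ) (fun i => μ i.succ) (fun i => A i.succ)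
      (fun i p q => hA i.succ p q)
    have hmp := (measurePreserving_piFinSuccAbove μ 0).symm
    have hfun : ∀ x : α 0 × (∀ i : Fin K, α i.succ),
        ((List.ofFn fun i => A i (((MeasurableEquiv.piFinSuccAbove α 0).symm x) i)).reverse.prod) p q
        = ∑ k, ((List.ofFn fun i : Fin K => A i.succ (x.2 i)).reverse.prod) p k * A 0 x.1 k q := by
      intro x
      rw [List.ofFn_succ, List.reverse_cons, List.prod_append, List.prod_singleton,
        Matrix.mul_apply]
      rfl
    have hint : ∀ k, Integrable (fun x : α 0 × (∀ i : Fin K, α i.succ) =>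
        ((List.ofFn fun i : Fin K => A i.succ (x.2 i)).reverse.prod) p k * A 0 x.1 k q)
        ((μ 0).prod (Measure.pi fun i => μ i.succ)) := by
      intro k
      have h1 := Integrable.mul_prod (hA 0 k q) (ih' p k).1
      refine h1.congr (Filter.Eventually.of_forall fun x => ?_)
      exact mul_comm _ _
    refine ⟨?_, ?_⟩
    · rw [← hmp.integrable_comp_emb (MeasurableEquiv.measurableEmbedding _)]
      have : ((fun w : ∀ i, α i => ((List.ofFn fun i => A i (w i)).reverse.prod) p q) ∘
          (MeasurableEquiv.piFinSuccAbove α 0).symm) = fun x : α 0 × (∀ i : Fin K, α i.succ) =>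
          ∑ k, ((List.ofFn fun i : Fin K => A i.succ (x.2 i)).reverse.prod) p k * A 0 x.1 k q := by
        funext x; exact hfun x
      rw [this]
      exact integrable_finsetSum _ fun k _ => hint k
    · rw [← hmp.integral_comp']
      refine (integral_congr_ae (Filter.Eventually.of_forall fun x => hfun x)).trans ?_
      rw [List.ofFn_succ, List.reverse_cons, List.prod_append, List.prod_singleton,
        Matrix.mul_apply]
      have h3 : ∫ x : α 0 × (∀ i : Fin K, α i.succ),
          ∑ k, ((List.ofFn fun i : Fin K => A i.succ (x.2 i)).reverse.prod) p k * A 0 x.1 k q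
          ∂((μ 0).prod (Measure.pi fun i => μ i.succ)) =
          ∑ k, (∫ w, ((List.ofFn fun i : Fin K => A i.succ (w i)).reverse.prod) p k
            ∂(Measure.pi fun i => μ i.succ)) * ∫ x, A 0 x k q ∂(μ 0) := by
        rw [integral_finsetSum _ fun k _ => hint k]
        refine Finset.sum_congr rfl fun k _ => ?_
        have h4 := integral_prod_mul (μ := μ 0) (ν := Measure.pi fun i => μ i.succ)
          (fun x => A 0 x k q) (fun w => ((List.ofFn fun i : Fin K => A i.succ (w i)).reverse.prod) p k)
        rw [mul_comm (∫ w, _ ∂_) _, ← h4]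
        refine integral_congr_ae (Filter.Eventually.of_forall fun x => ?_)
        exact mul_comm _ _
      refine h3.trans ?_
      refine Finset.sum_congr rfl fun k _ => ?_
      rw [(ih' p k).2]
      rfl

/-- The unitary butterfly `W_n = U_K ⋯ U_1`, `n = 2^K`. -/
noncomputable def butterfly (K : ℕ) (w : ∀ l : Fin K, LowMode K l → ℝ × ℝ) :
    Matrix (Fin (2 ^ K)) (Fin (2 ^ K)) ℂ :=
  ((List.ofFn fun l : Fin K => layerU K l (w l)).reverse).prod

/-- The law of all the angles. -/
noncomputable def angleMeasure (K : ℕ) : Measure (∀ l : Fin K, LowMode K l → ℝ × ℝ) :=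
  Measure.pi fun l : Fin K => layerMeasure K l

instance (K : ℕ) : IsProbabilityMeasure (angleMeasure K) := by
  unfold angleMeasure; infer_instance

lemma Smat_butterfly (K : ℕ) (w : ∀ l : Fin K, LowMode K l → ℝ × ℝ) :
    Smat (butterfly K w) = ((List.ofFn fun l : Fin K => Smat (layerU K l (w l))).reverse).prod := by
  unfold butterfly
  have h := map_list_prod (SmatHom (Fin (2 ^ K))) ((List.ofFn fun l : Fin K => layerU K l (w l)).reverse)
  rw [List.map_reverse, List.map_ofFn] at h
  exact h

lemma expect_Smat (K : ℕ) (p q : (Fin (2 ^ K) × Fin (2 ^ K)) × (Fin (2 ^ K) × Fin (2 ^ K))) :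
    Integrable (fun w => Smat (butterfly K w) p q) (angleMeasure K) ∧
    ∫ w, Smat (butterfly K w) p q ∂(angleMeasure K) =
      ((List.ofFn fun l : Fin K => ES K l).reverse.prod) p q := by
  have h := indep_prod (N := (Fin (2 ^ K) × Fin (2 ^ K)) × (Fin (2 ^ K) × Fin (2 ^ K))) K
    (fun l => LowMode K l → ℝ × ℝ) (fun l => layerMeasure K l)
    (fun l w => Smat (layerU K l w)) (fun l p q => by
      obtain ⟨⟨i, j⟩, ⟨k, m⟩⟩ := p
      obtain ⟨⟨a, b⟩, ⟨c, d⟩⟩ := q
      exact S4_integrable l.2 i j k m a b c d) p q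
  simp_rw [Smat_butterfly]
  exact h

lemma vecMul_chain {N : Type*} [Fintype N] [DecidableEq N] (c : ℂ) (v : ℕ → N → ℂ)
    (M : ℕ → Matrix N N ℂ) : ∀ K : ℕ, (∀ l < K, v (l + 1) ᵥ* M l = c • v l) →
    v K ᵥ* ((List.ofFn fun l : Fin K => M l).reverse.prod) = c ^ K • v 0 := by
  intro K
  induction K with
  | zero => intro _; simp
  | succ K ih =>
    intro h
    rw [List.ofFn_succ', List.concat_eq_append, List.reverse_append, List.reverse_singleton,
      List.singleton_append, List.prod_cons, ← Matrix.vecMul_vecMul]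
    have h1 := h K (by omega)
    simp only [Fin.val_last]
    rw [h1, Matrix.smul_vecMul]
    have h2 := ih (fun l hl => h l (by omega))
    simp only [Fin.val_castSucc]
    rw [h2, smul_smul, ← pow_succ']

section
variable {K : ℕ} {x r : ℝ} (hx : 0 < x) (hr : r = (3 * x - 1) / (2 * x)) (hr0 : 0 < r)
  (hrK : r ^ K = x)

include hx hr hr0 hrK

/-- the eigenvector relation for the two-particle observable -/
lemma eigen_two :
    (fun q => ∫ w, (vecX (fun i j : Fin (2 ^ K) => ((phi K x r K i j : ℝ) : ℂ)) ᵥ*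
      Smat (butterfly K w)) q ∂(angleMeasure K)) =
      ((x / 2 ^ K : ℝ) : ℂ) • vecX (fun i j : Fin (2 ^ K) => ((phi K x r K i j : ℝ) : ℂ)) := by
  have h1 : ∀ q, ∫ w, (vecX (fun i j : Fin (2 ^ K) => ((phi K x r K i j : ℝ) : ℂ)) ᵥ*
      Smat (butterfly K w)) q ∂(angleMeasure K) =
      (vecX (fun i j : Fin (2 ^ K) => ((phi K x r K i j : ℝ) : ℂ)) ᵥ*
        ((List.ofFn fun l : Fin K => ES K l).reverse.prod)) q := by
    intro q
    simp only [Matrix.vecMul, dotProduct]
    rw [integral_finsetSum _ (fun p _ => (expect_Smat K p q).1.const_mul _)]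
    refine Finset.sum_congr rfl fun p _ => ?_
    rw [integral_const_mul, (expect_Smat K p q).2]
  funext q
  rw [h1]
  have h2 := vecMul_chain ((r / 2 : ℝ) : ℂ)
    (fun l => vecX (fun i j : Fin (2 ^ K) => ((phi K x r l i j : ℝ) : ℂ))) (fun l => ES K l) K
    (fun l hl => layer_step hx hr hr0 hrK hl)
  rw [h2]
  have h3 : (fun i j : Fin (2 ^ K) => ((phi K x r 0 i j : ℝ) : ℂ)) =
      fun i j : Fin (2 ^ K) => ((phi K x r K i j : ℝ) : ℂ) := by
    funext i j
    rw [phi_zero_eq_phi_K]
  rw [h3]
  have h4 : (r / 2) ^ K = x / 2 ^ K := by rw [div_pow, hrK]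
  rw [← h4]
  push_cast
  rfl

end

end Pool.Agent.Work.MP_93fab9_mp
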