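import Mathlib
import Pool.Agent.Work.MP_93fab9_mp.Indep

set_option autoImplicit false

namespace Pool.Agent.Work.MP_93fab9_mp

open MeasureTheory Matrix
open scoped Kronecker

/-- Index set of the basis `e_a ∧ e_b`, `a < b`, of `Λ²(ℂ^n)`. -/
abbrev Pair (n : ℕ) : Type := {p : Fin n × Fin n // p.1 < p.2}

/-- The matrix of `Λ²(W)` in the basis `e_a ∧ e_b` (`a < b`): its entries are the `2 × 2` minors
of `W`. -/
def wedge2 {n : ℕ} (W : Matrix (Fin n) (Fin n) ℂ) : Matrix (Pair n) (Pair n) ℂ :=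
  Matrix.of fun p q => W p.1.1 q.1.1 * W p.1.2 q.1.2 - W p.1.1 q.1.2 * W p.1.2 q.1.1

/-- The matrix of `Λ²(W) ⊗ Λ²(W)`. -/
noncomputable def rep2 {n : ℕ} (W : Matrix (Fin n) (Fin n) ℂ) :
    Matrix (Pair n × Pair n) (Pair n × Pair n) ℂ := wedge2 W ⊗ₖ wedge2 W

/-- embedding `Λ² → ⊗²` -/
def Jm (n : ℕ) : Matrix (Fin n × Fin n) (Pair n) ℂ :=
  Matrix.of fun u p => (if u = p.1 then 1 else 0) - (if u = p.1.swap then 1 else 0)

lemma W_mul_J {n : ℕ} (W : Matrix (Fin n) (Fin n) ℂ) : (W ⊗ₖ W) * Jm n = Jm n * wedge2 W := by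
  ext ⟨i, m⟩ ⟨⟨a, b⟩, hab⟩
  rw [Matrix.mul_apply, Matrix.mul_apply]
  have h1 : ∑ u : Fin n × Fin n, (W ⊗ₖ W) (i, m) u * Jm n u ⟨(a, b), hab⟩ =
      W i a * W m b - W i b * W m a := by
    have : ∀ u : Fin n × Fin n, (W ⊗ₖ W) (i, m) u * Jm n u ⟨(a, b), hab⟩ =
        (if u = (a, b) then W i u.1 * W m u.2 else 0) -
        (if u = (b, a) then W i u.1 * W m u.2 else 0) := by
      intro u
      show (W i u.1 * W m u.2) * ((if u = (a, b) then 1 else 0) - (if u = (b, a) then 1 else 0)) = _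
      split_ifs <;> ring
    simp_rw [this, Finset.sum_sub_distrib, Finset.sum_ite_eq' Finset.univ]
    simp
  rw [h1]
  rcases lt_trichotomy i m with him | him | him
  · rw [Finset.sum_eq_single (⟨(i, m), him⟩ : Pair n)]
    · have : Jm n (i, m) ⟨(i, m), him⟩ = 1 := by
        show (if (i, m) = (i, m) then (1 : ℂ) else 0) - (if (i, m) = (m, i) then 1 else 0) = 1
        rw [if_pos rfl, if_neg]
        · ring
        · intro h; exact him.ne (congrArg Prod.fst h)
      rw [this, one_mul]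
      rfl
    · rintro ⟨⟨c, d⟩, hcd⟩ _ hne
      have : Jm n (i, m) ⟨(c, d), hcd⟩ = 0 := by
        show (if (i, m) = (c, d) then (1 : ℂ) else 0) - (if (i, m) = (d, c) then 1 else 0) = 0
        rw [if_neg, if_neg]
        · ring
        · intro h
          have h1 := congrArg Prod.fst h
          have h2 := congrArg Prod.snd h
          simp only at h1 h2 hcd
          rw [h1, h2] at him
          exact absurd hcd (not_lt.2 him.le)
        · intro h
          exact hne (Subtype.ext h.symm)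
      rw [this, zero_mul]
    · intro h; exact absurd (Finset.mem_univ _) h
  · subst him
    rw [Finset.sum_eq_zero]
    · ring
    · rintro ⟨⟨c, d⟩, hcd⟩ _
      have : Jm n (i, i) ⟨(c, d), hcd⟩ = 0 := by
        show (if (i, i) = (c, d) then (1 : ℂ) else 0) - (if (i, i) = (d, c) then 1 else 0) = 0
        rw [if_neg, if_neg]
        · ring
        · intro h
          have h1 := congrArg Prod.fst h
          have h2 := congrArg Prod.snd h
          simp only at h1 h2 hcd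
          rw [← h1, ← h2] at hcd
          exact lt_irrefl _ hcd
        · intro h
          have h1 := congrArg Prod.fst h
          have h2 := congrArg Prod.snd h
          simp only at h1 h2 hcd
          rw [← h1, ← h2] at hcd
          exact lt_irrefl _ hcd
      rw [this, zero_mul]
  · rw [Finset.sum_eq_single (⟨(m, i), him⟩ : Pair n)]
    · have : Jm n (i, m) ⟨(m, i), him⟩ = -1 := by
        show (if (i, m) = (m, i) then (1 : ℂ) else 0) - (if (i, m) = (i, m) then 1 else 0) = -1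
        rw [if_neg, if_pos rfl]
        · ring
        · intro h; exact him.ne (congrArg Prod.snd h)
      rw [this]
      show _ = -1 * (W m a * W i b - W m b * W i a)
      ring
    · rintro ⟨⟨c, d⟩, hcd⟩ _ hne
      have : Jm n (i, m) ⟨(c, d), hcd⟩ = 0 := by
        show (if (i, m) = (c, d) then (1 : ℂ) else 0) - (if (i, m) = (d, c) then 1 else 0) = 0
        rw [if_neg, if_neg]
        · ring
        · intro h
          apply hne
          apply Subtype.ext
          have h1 := congrArg Prod.fst h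
          have h2 := congrArg Prod.snd h
          simp only at h1 h2
          show (c, d) = (m, i)
          rw [h1, h2]
        · intro h
          have h1 := congrArg Prod.fst h
          have h2 := congrArg Prod.snd h
          simp only at h1 h2 hcd
          rw [h1, h2] at him
          exact absurd hcd (not_lt.2 him.le)
      rw [this, zero_mul]
    · intro h; exact absurd (Finset.mem_univ _) h

/-- exchange of the two middle tensor factors -/
def mid (n : ℕ) : (Fin n × Fin n) × (Fin n × Fin n) ≃ (Fin n × Fin n) × (Fin n × Fin n) :=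
  Equiv.prodProdProdComm _ _ _ _

/-- `X` acting on the tensor factors 1 and 3 -/
noncomputable def N13 {n : ℕ} (X : Matrix (Fin n × Fin n) (Fin n × Fin n) ℂ) :
    Matrix ((Fin n × Fin n) × (Fin n × Fin n)) ((Fin n × Fin n) × (Fin n × Fin n)) ℂ :=
  (X ⊗ₖ (1 : Matrix (Fin n × Fin n) (Fin n × Fin n) ℂ)).submatrix (mid n) (mid n)

/-- the observable on `Λ² ⊗ Λ²` induced by `X` -/
noncomputable def Obs {n : ℕ} (X : Matrix (Fin n × Fin n) (Fin n × Fin n) ℂ) :
    Matrix (Pair n × Pair n) (Pair n × Pair n) ℂ :=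
  (Jm n ⊗ₖ Jm n).conjTranspose * N13 X * (Jm n ⊗ₖ Jm n)

lemma W4_sub {n : ℕ} (W : Matrix (Fin n) (Fin n) ℂ) :
    ((W ⊗ₖ W) ⊗ₖ (W ⊗ₖ W)).submatrix (mid n) (mid n) = (W ⊗ₖ W) ⊗ₖ (W ⊗ₖ W) := by
  ext ⟨⟨i, j⟩, ⟨k, l⟩⟩ ⟨⟨a, b⟩, ⟨c, d⟩⟩
  show W i a * W k c * (W j b * W l d) = W i a * W j b * (W k c * W l d)
  ring

lemma Obs_equivariant {n : ℕ} (W : Matrix (Fin n) (Fin n) ℂ) (hW : W.conjTranspose * W = 1)
    (X : Matrix (Fin n × Fin n) (Fin n × Fin n) ℂ) :
    (rep2 W).conjTranspose * Obs X * rep2 W =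
      Obs ((W ⊗ₖ W).conjTranspose * X * (W ⊗ₖ W)) := by
  have hJ : (Jm n ⊗ₖ Jm n) * rep2 W = ((W ⊗ₖ W) ⊗ₖ (W ⊗ₖ W)) * (Jm n ⊗ₖ Jm n) := by
    unfold rep2
    rw [← Matrix.mul_kronecker_mul, ← W_mul_J, Matrix.mul_kronecker_mul]
  have hJ' : (rep2 W).conjTranspose * (Jm n ⊗ₖ Jm n).conjTranspose =
      (Jm n ⊗ₖ Jm n).conjTranspose * ((W ⊗ₖ W) ⊗ₖ (W ⊗ₖ W)).conjTranspose := by
    rw [← Matrix.conjTranspose_mul, hJ, Matrix.conjTranspose_mul]
  have hWW : (W ⊗ₖ W).conjTranspose * (W ⊗ₖ W) = 1 := by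
    rw [Matrix.conjTranspose_kronecker, ← Matrix.mul_kronecker_mul, hW, Matrix.one_kronecker_one]
  have hN : ((W ⊗ₖ W) ⊗ₖ (W ⊗ₖ W)).conjTranspose * N13 X * ((W ⊗ₖ W) ⊗ₖ (W ⊗ₖ W)) =
      N13 ((W ⊗ₖ W).conjTranspose * X * (W ⊗ₖ W)) := by
    unfold N13
    conv_lhs => rw [← W4_sub W]
    rw [Matrix.conjTranspose_submatrix, Matrix.submatrix_mul_equiv, Matrix.submatrix_mul_equiv,
      Matrix.conjTranspose_kronecker, ← Matrix.mul_kronecker_mul, ← Matrix.mul_kronecker_mul,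
      Matrix.mul_one, hWW]
  unfold Obs
  calc (rep2 W).conjTranspose * ((Jm n ⊗ₖ Jm n).conjTranspose * N13 X * (Jm n ⊗ₖ Jm n)) * rep2 W
      = ((rep2 W).conjTranspose * (Jm n ⊗ₖ Jm n).conjTranspose) * N13 X *
          ((Jm n ⊗ₖ Jm n) * rep2 W) := by simp only [Matrix.mul_assoc]
    _ = (Jm n ⊗ₖ Jm n).conjTranspose * (((W ⊗ₖ W) ⊗ₖ (W ⊗ₖ W)).conjTranspose * N13 X *
          ((W ⊗ₖ W) ⊗ₖ (W ⊗ₖ W))) * (Jm n ⊗ₖ Jm n) := by
        rw [hJ, hJ']; simp only [Matrix.mul_assoc]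
    _ = _ := by rw [hN]

/-- the two-particle observable as a matrix -/
noncomputable def matX {n : ℕ} (φ : Fin n → Fin n → ℂ) : Matrix (Fin n × Fin n) (Fin n × Fin n) ℂ :=
  Matrix.of fun p q => vecX φ (p, q)

lemma conj_matX {n : ℕ} (φ : Fin n → Fin n → ℂ) (W : Matrix (Fin n) (Fin n) ℂ)
    (p q : Fin n × Fin n) :
    ((W ⊗ₖ W).conjTranspose * matX φ * (W ⊗ₖ W)) p q = (vecX φ ᵥ* Smat W) (p, q) := by
  rw [Matrix.mul_apply]
  simp only [Matrix.mul_apply, Matrix.vecMul, dotProduct]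
  conv_rhs => rw [Fintype.sum_prod_type, Finset.sum_comm]
  refine Finset.sum_congr rfl fun u _ => ?_
  rw [Finset.sum_mul]
  refine Finset.sum_congr rfl fun v _ => ?_
  show star (W v.1 p.1 * W v.2 p.2) * vecX φ (v, u) * (W u.1 q.1 * W u.2 q.2) =
    vecX φ (v, u) * ((starRingEnd ℂ) (W v.1 p.1) * (starRingEnd ℂ) (W v.2 p.2) *
      (W u.1 q.1 * W u.2 q.2))
  rw [star_mul']
  show (starRingEnd ℂ) (W v.1 p.1) * (starRingEnd ℂ) (W v.2 p.2) * vecX φ (v, u) *
    (W u.1 q.1 * W u.2 q.2) = _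
  ring

/-- a diagonal entry of the induced observable -/
lemma Obs_diag {n : ℕ} (X : Matrix (Fin n × Fin n) (Fin n × Fin n) ℂ) (a b : Fin n) (hab : a < b) :
    Obs X (⟨(a, b), hab⟩, ⟨(a, b), hab⟩) (⟨(a, b), hab⟩, ⟨(a, b), hab⟩) =
      X (a, a) (a, a) + X (a, b) (a, b) + X (b, a) (b, a) + X (b, b) (b, b) := by
  unfold Obs
  rw [Matrix.mul_apply]
  simp only [Matrix.mul_apply]
  have hne : a ≠ b := hab.ne
  have hne' : b ≠ a := hab.ne'
  have hJ : ∀ u : (Fin n × Fin n) × (Fin n × Fin n),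
      (Jm n ⊗ₖ Jm n) u (⟨(a, b), hab⟩, ⟨(a, b), hab⟩) =
      (if u = ((a, b), (a, b)) then 1 else 0) - (if u = ((a, b), (b, a)) then 1 else 0)
      - (if u = ((b, a), (a, b)) then 1 else 0) + (if u = ((b, a), (b, a)) then 1 else 0) := by
    rintro ⟨u1, u2⟩
    show ((if u1 = (a, b) then (1 : ℂ) else 0) - (if u1 = (b, a) then 1 else 0)) *
      ((if u2 = (a, b) then (1 : ℂ) else 0) - (if u2 = (b, a) then 1 else 0)) = _
    simp only [Prod.mk.injEq, ite_and]
    split_ifs <;> ring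
  have hN : ∀ i m j k i' m' j' k' : Fin n, N13 X ((i, m), (j, k)) ((i', m'), (j', k')) =
      X (i, j) (i', j') * (if m = m' ∧ k = k' then 1 else 0) := by
    intro i m j k i' m' j' k'
    show X (i, j) (i', j') * (1 : Matrix (Fin n × Fin n) (Fin n × Fin n) ℂ) (m, k) (m', k') = _
    rw [Matrix.one_apply]
    simp only [Prod.mk.injEq]
  simp only [Matrix.conjTranspose_apply, hJ]
  simp only [mul_add, mul_sub, star_add, star_sub, apply_ite star, star_one, star_zero, add_mul,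
    sub_mul, ite_mul, mul_ite, zero_mul, mul_zero, one_mul, mul_one, Finset.sum_add_distrib,
    Finset.sum_sub_distrib, Finset.sum_ite_eq', Finset.mem_univ, if_true]
  simp only [hN, hne, hne', and_true, and_false, and_self, if_true, if_false,
    mul_one, mul_zero, sub_zero, add_zero, zero_add, zero_sub]
  ring

end Pool.Agent.Work.MP_93fab9_mp
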