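import Mathlib
import Pool.Agent.Work.MP_93fab9_mp.Transport

set_option autoImplicit false

namespace Pool.Agent.Work.MP_93fab9_mp

open MeasureTheory Matrix
open scoped Kronecker

/-! ### bounded continuous entries -/

/-- bounded continuous function -/
def Nice {α : Type*} [TopologicalSpace α] (f : α → ℂ) : Prop :=
  Continuous f ∧ ∃ C : ℝ, ∀ w, ‖f w‖ ≤ C

section
variable {α : Type*} [TopologicalSpace α] {f g : α → ℂ}

lemma Nice.const (c : ℂ) : Nice (fun _ : α => c) := ⟨continuous_const, ‖c‖, fun _ => le_rfl⟩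

lemma Nice.add (hf : Nice f) (hg : Nice g) : Nice (fun w => f w + g w) := by
  obtain ⟨h1, C, h2⟩ := hf
  obtain ⟨h3, D, h4⟩ := hg
  exact ⟨h1.add h3, C + D, fun w => (norm_add_le _ _).trans (add_le_add (h2 w) (h4 w))⟩

lemma Nice.sub (hf : Nice f) (hg : Nice g) : Nice (fun w => f w - g w) := by
  obtain ⟨h1, C, h2⟩ := hf
  obtain ⟨h3, D, h4⟩ := hg
  exact ⟨h1.sub h3, C + D, fun w => (norm_sub_le _ _).trans (add_le_add (h2 w) (h4 w))⟩

lemma Nice.mul (hf : Nice f) (hg : Nice g) : Nice (fun w => f w * g w) := by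
  obtain ⟨h1, C, h2⟩ := hf
  obtain ⟨h3, D, h4⟩ := hg
  refine ⟨h1.mul h3, C * D, fun w => ?_⟩
  rw [norm_mul]
  exact mul_le_mul (h2 w) (h4 w) (norm_nonneg _) ((norm_nonneg _).trans (h2 w))

lemma Nice.star (hf : Nice f) : Nice (fun w => star (f w)) := by
  obtain ⟨h1, C, h2⟩ := hf
  refine ⟨h1.star, C, fun w => ?_⟩
  rw [norm_star]; exact h2 w

lemma Nice.sum {ι : Type*} (s : Finset ι) {F : ι → α → ℂ} (h : ∀ i ∈ s, Nice (F i)) :
    Nice (fun w => ∑ i ∈ s, F i w) := by
  classical
  induction s using Finset.induction_on with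
  | empty => simpa using Nice.const (α := α) 0
  | insert i s hi ih =>
    simp_rw [Finset.sum_insert hi]
    exact (h i (Finset.mem_insert_self _ _)).add (ih fun j hj => h j (Finset.mem_insert_of_mem hj))

lemma Nice.integrable [MeasurableSpace α] [OpensMeasurableSpace α] [SecondCountableTopology α]
    {μ : Measure α} [IsFiniteMeasure μ] (hf : Nice f) : Integrable f μ := by
  obtain ⟨h1, C, h2⟩ := hf
  exact integrable_of_cont_bound μ f h1 C h2

/-- matrices with bounded continuous entries -/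
def NiceM {m n : Type*} (A : α → Matrix m n ℂ) : Prop := ∀ i j, Nice fun w => A w i j

lemma NiceM.const {m n : Type*} (A : Matrix m n ℂ) : NiceM (fun _ : α => A) :=
  fun _ _ => Nice.const _

lemma NiceM.mul {m n o : Type*} [Fintype n] {A : α → Matrix m n ℂ} {B : α → Matrix n o ℂ}
    (hA : NiceM A) (hB : NiceM B) : NiceM (fun w => A w * B w) := by
  intro i j
  simp only [Matrix.mul_apply]
  exact Nice.sum _ fun k _ => (hA i k).mul (hB k j)

lemma NiceM.conjTranspose {m n : Type*} {A : α → Matrix m n ℂ} (hA : NiceM A) :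
    NiceM (fun w => (A w).conjTranspose) := fun i j => (hA j i).star

lemma NiceM.kronecker {m n o p : Type*} {A : α → Matrix m n ℂ} {B : α → Matrix o p ℂ}
    (hA : NiceM A) (hB : NiceM B) : NiceM (fun w => A w ⊗ₖ B w) :=
  fun i j => (hA i.1 j.1).mul (hB i.2 j.2)

end

lemma NiceM.wedge2 {α : Type*} [TopologicalSpace α] {n : ℕ} {A : α → Matrix (Fin n) (Fin n) ℂ}
    (hA : NiceM A) : NiceM (fun w => wedge2 (A w)) :=
  fun _ _ => ((hA _ _).mul (hA _ _)).sub ((hA _ _).mul (hA _ _))

lemma NiceM.rep2 {α : Type*} [TopologicalSpace α] {n : ℕ} {A : α → Matrix (Fin n) (Fin n) ℂ}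
    (hA : NiceM A) : NiceM (fun w => rep2 (A w)) := hA.wedge2.kronecker hA.wedge2

lemma layerU_nice {K l : ℕ} (hl : l < K) : NiceM (fun w => layerU K l w) :=
  fun i j => ⟨layerU_continuous K l i j, 1, fun w => norm_entry_le _ (layerU_unitary hl w) i j⟩

lemma nice_list {α : Type*} [TopologicalSpace α] {n : Type*} [Fintype n] [DecidableEq n]
    (L : List (α → Matrix n n ℂ)) (h : ∀ A ∈ L, NiceM A) :
    NiceM (fun w => (L.map fun A => A w).prod) := by
  induction L with
  | nil => simpa using NiceM.const (α := α) (1 : Matrix n n ℂ)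
  | cons A L ih =>
    simp only [List.map_cons, List.prod_cons]
    exact (h A List.mem_cons_self).mul (ih fun B hB => h B (List.mem_cons_of_mem _ hB))

lemma butterfly_nice (K : ℕ) : NiceM (fun w => butterfly K w) := by
  have h := nice_list (α := ∀ l : Fin K, LowMode K l → ℝ × ℝ)
    ((List.ofFn fun l : Fin K => fun w : (∀ l : Fin K, LowMode K l → ℝ × ℝ) =>
      layerU K l (w l)).reverse) (by
    intro A hA
    rw [List.mem_reverse, List.mem_ofFn] at hA
    obtain ⟨l, rfl⟩ := hA
    intro i j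
    obtain ⟨h1, C, h2⟩ := layerU_nice l.2 i j
    exact ⟨h1.comp (continuous_apply l), C, fun w => h2 _⟩)
  have e : (fun w => butterfly K w) = fun w => (((List.ofFn fun l : Fin K =>
      fun w : (∀ l : Fin K, LowMode K l → ℝ × ℝ) => layerU K l (w l)).reverse).map
      fun A => A w).prod := by
    funext w
    unfold butterfly
    rw [List.map_reverse, List.map_ofFn]
    rfl
  rw [e]
  exact h

lemma butterfly_unitary (K : ℕ) (w : ∀ l : Fin K, LowMode K l → ℝ × ℝ) :
    (butterfly K w).conjTranspose * butterfly K w = 1 := by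
  have key : ∀ L : List (Matrix (Fin (2 ^ K)) (Fin (2 ^ K)) ℂ),
      (∀ A ∈ L, A.conjTranspose * A = 1) → L.prod.conjTranspose * L.prod = 1 := by
    intro L
    induction L with
    | nil => intro _; simp
    | cons A L ih =>
      intro h
      rw [List.prod_cons, Matrix.conjTranspose_mul]
      calc L.prod.conjTranspose * A.conjTranspose * (A * L.prod)
          = L.prod.conjTranspose * (A.conjTranspose * A) * L.prod := by
            simp only [Matrix.mul_assoc]
        _ = 1 := by
            rw [h A List.mem_cons_self, Matrix.mul_one]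
            exact ih fun B hB => h B (List.mem_cons_of_mem _ hB)
  apply key
  intro A hA
  rw [List.mem_reverse, List.mem_ofFn] at hA
  obtain ⟨l, rfl⟩ := hA
  exact layerU_unitary l.2 _

/-- The map `Φ_n`, `n = 2^K`. -/
noncomputable def Phi (K : ℕ) :
    Module.End ℂ (Matrix (Pair (2 ^ K) × Pair (2 ^ K)) (Pair (2 ^ K) × Pair (2 ^ K)) ℂ) where
  toFun Y := Matrix.of fun p q => ∫ w, (rep2 (butterfly K w) * Y *
    (rep2 (butterfly K w)).conjTranspose) p q ∂(angleMeasure K)
  map_add' Y Z := by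
    have hn : ∀ Y, NiceM (fun w => rep2 (butterfly K w) * Y * (rep2 (butterfly K w)).conjTranspose) :=
      fun Y => ((butterfly_nice K).rep2.mul (NiceM.const Y)).mul
        (butterfly_nice K).rep2.conjTranspose
    ext p q
    simp only [Matrix.of_apply, Matrix.add_apply, Matrix.mul_add, Matrix.add_mul]
    exact integral_add (hn Y p q).integrable (hn Z p q).integrable
  map_smul' c Y := by
    ext p q
    simp only [Matrix.of_apply, Matrix.smul_apply, Matrix.mul_smul, Matrix.smul_mul,
      RingHom.id_apply, smul_eq_mul]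
    exact integral_const_mul _ _

lemma Phi_apply (K : ℕ) (Y : Matrix (Pair (2 ^ K) × Pair (2 ^ K)) (Pair (2 ^ K) × Pair (2 ^ K)) ℂ) :
    Phi K Y = Matrix.of fun p q => ∫ w, (rep2 (butterfly K w) * Y *
    (rep2 (butterfly K w)).conjTranspose) p q ∂(angleMeasure K) := rfl

lemma integral_linear {Ω m n : Type*} [MeasurableSpace Ω] [Fintype m] [Fintype n] [DecidableEq m]
    [DecidableEq n] (μ : Measure Ω) (f : Matrix m n ℂ →ₗ[ℂ] ℂ) (Z : Ω → Matrix m n ℂ)
    (hZ : ∀ i j, Integrable (fun w => Z w i j) μ) :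
    ∫ w, f (Z w) ∂μ = f (Matrix.of fun i j => ∫ w, Z w i j ∂μ) := by
  have hf : ∀ M : Matrix m n ℂ, f M = ∑ i, ∑ j, M i j * f (Matrix.single i j 1) := by
    intro M
    conv_lhs => rw [Matrix.matrix_eq_sum_single M]
    rw [map_sum]
    refine Finset.sum_congr rfl fun i _ => ?_
    rw [map_sum]
    refine Finset.sum_congr rfl fun j _ => ?_
    have : Matrix.single i j (M i j) = (M i j) • Matrix.single i j (1 : ℂ) := by
      rw [Matrix.smul_single]; simp
    rw [this, map_smul, smul_eq_mul]
  rw [hf]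
  simp_rw [hf (Z _)]
  rw [integral_finsetSum _ fun i _ => integrable_finsetSum _ fun j _ => (hZ i j).mul_const _]
  refine Finset.sum_congr rfl fun i _ => ?_
  rw [integral_finsetSum _ fun j _ => (hZ i j).mul_const _]
  refine Finset.sum_congr rfl fun j _ => ?_
  rw [integral_mul_const]
  rfl

/-- `Y ↦ tr (A Y)` -/
noncomputable def traceMul {m : Type*} [Fintype m] (A : Matrix m m ℂ) : Matrix m m ℂ →ₗ[ℂ] ℂ where
  toFun Y := (A * Y).trace
  map_add' Y Z := by rw [Matrix.mul_add, Matrix.trace_add]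
  map_smul' c Y := by rw [Matrix.mul_smul, Matrix.trace_smul]; rfl

/-- `X ↦ tr (Obs X * Y)` -/
noncomputable def obsTrace {n : ℕ} (Y : Matrix (Pair n × Pair n) (Pair n × Pair n) ℂ) :
    Matrix (Fin n × Fin n) (Fin n × Fin n) ℂ →ₗ[ℂ] ℂ where
  toFun X := (Obs X * Y).trace
  map_add' X X' := by
    have h : Obs (X + X') = Obs X + Obs X' := by
      unfold Obs N13
      rw [Matrix.add_kronecker]
      have : ((X ⊗ₖ (1 : Matrix (Fin n × Fin n) (Fin n × Fin n) ℂ)) + (X' ⊗ₖ 1)).submatrix (mid n)
        (mid n) = (X ⊗ₖ (1 : Matrix (Fin n × Fin n) (Fin n × Fin n) ℂ)).submatrix (mid n) (mid n) +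
        (X' ⊗ₖ (1 : Matrix (Fin n × Fin n) (Fin n × Fin n) ℂ)).submatrix (mid n) (mid n) := rfl
      rw [this, Matrix.mul_add, Matrix.add_mul]
    rw [h, Matrix.add_mul, Matrix.trace_add]
  map_smul' c X := by
    have h : Obs (c • X) = c • Obs X := by
      unfold Obs N13
      rw [Matrix.smul_kronecker]
      have : (c • (X ⊗ₖ (1 : Matrix (Fin n × Fin n) (Fin n × Fin n) ℂ))).submatrix (mid n)
        (mid n) = c • (X ⊗ₖ (1 : Matrix (Fin n × Fin n) (Fin n × Fin n) ℂ)).submatrix (mid n) (mid n)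
         := rfl
      rw [this, Matrix.mul_smul, Matrix.smul_mul]
    rw [h, Matrix.smul_mul, Matrix.trace_smul]; rfl

section
variable {K : ℕ} {x r : ℝ} (hx : 0 < x) (hr : r = (3 * x - 1) / (2 * x)) (hr0 : 0 < r)
  (hrK : r ^ K = x)

include hx hr hr0 hrK

/-- left eigenvector relation -/
lemma left_eigen (Y : Matrix (Pair (2 ^ K) × Pair (2 ^ K)) (Pair (2 ^ K) × Pair (2 ^ K)) ℂ) :
    (Obs (matX (fun i j : Fin (2 ^ K) => ((phi K x r K i j : ℝ) : ℂ))) * Phi K Y).trace =
      ((x / 2 ^ K : ℝ) : ℂ) *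
        (Obs (matX (fun i j : Fin (2 ^ K) => ((phi K x r K i j : ℝ) : ℂ))) * Y).trace := by
  set φ : Fin (2 ^ K) → Fin (2 ^ K) → ℂ := fun i j => ((phi K x r K i j : ℝ) : ℂ) with hφ
  have hn : ∀ Y, NiceM (fun w => rep2 (butterfly K w) * Y * (rep2 (butterfly K w)).conjTranspose) :=
      fun Y => ((butterfly_nice K).rep2.mul (NiceM.const Y)).mul
        (butterfly_nice K).rep2.conjTranspose
  have h1 := integral_linear (angleMeasure K) (traceMul (Obs (matX φ)))
    (fun w => rep2 (butterfly K w) * Y * (rep2 (butterfly K w)).conjTranspose)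
    (fun i j => (hn Y i j).integrable)
  have h2 : (Obs (matX φ) * Phi K Y).trace = ∫ w, (Obs (matX φ) * (rep2 (butterfly K w) * Y *
      (rep2 (butterfly K w)).conjTranspose)).trace ∂(angleMeasure K) := h1.symm
  have h3 : ∀ w, (Obs (matX φ) * (rep2 (butterfly K w) * Y *
      (rep2 (butterfly K w)).conjTranspose)).trace =
      obsTrace Y ((butterfly K w ⊗ₖ butterfly K w).conjTranspose * matX φ *
        (butterfly K w ⊗ₖ butterfly K w)) := by
    intro w
    show _ = (Obs ((butterfly K w ⊗ₖ butterfly K w).conjTranspose * matX φ *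
        (butterfly K w ⊗ₖ butterfly K w)) * Y).trace
    rw [← Obs_equivariant _ (butterfly_unitary K w), ← Matrix.mul_assoc, Matrix.trace_mul_comm,
      ← Matrix.mul_assoc, ← Matrix.mul_assoc]
  rw [h2]
  simp_rw [h3]
  have hn2 : NiceM (fun w => (butterfly K w ⊗ₖ butterfly K w).conjTranspose * matX φ *
        (butterfly K w ⊗ₖ butterfly K w)) :=
    (((butterfly_nice K).kronecker (butterfly_nice K)).conjTranspose.mul (NiceM.const _)).mul
      ((butterfly_nice K).kronecker (butterfly_nice K))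
  rw [integral_linear _ _ _ (fun i j => (hn2 i j).integrable)]
  have h4 : (Matrix.of fun p q => ∫ w, ((butterfly K w ⊗ₖ butterfly K w).conjTranspose * matX φ *
        (butterfly K w ⊗ₖ butterfly K w)) p q ∂(angleMeasure K)) =
      ((x / 2 ^ K : ℝ) : ℂ) • matX φ := by
    ext p q
    simp only [Matrix.of_apply, conj_matX, Matrix.smul_apply]
    have h5 := congrFun (eigen_two hx hr hr0 hrK) (p, q)
    exact h5
  rw [h4, map_smul, smul_eq_mul]
  rfl

end

/-- Passing from a left eigenvector to an eigenvalue. -/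
lemma hasEigenvalue_of_left {V : Type*} [AddCommGroup V] [Module ℂ V] [FiniteDimensional ℂ V]
    (T : Module.End ℂ V) (f : V →ₗ[ℂ] ℂ) (hf : f ≠ 0) (c : ℂ) (h : ∀ Y, f (T Y) = c * f Y) :
    T.HasEigenvalue c := by
  by_contra hcon
  have hinj : Function.Injective (T - c • (1 : Module.End ℂ V)) := by
    rw [injective_iff_map_eq_zero]
    intro Y hY
    by_contra hY0
    apply hcon
    apply Module.End.hasEigenvalue_of_hasEigenvector (x := Y)
    rw [Module.End.hasEigenvector_iff, Module.End.mem_eigenspace_iff]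
    refine ⟨?_, hY0⟩
    rw [LinearMap.sub_apply, LinearMap.smul_apply, Module.End.one_apply, sub_eq_zero] at hY
    exact hY
  have hsurj := LinearMap.injective_iff_surjective.1 hinj
  apply hf
  ext Z
  obtain ⟨Y, rfl⟩ := hsurj Z
  rw [LinearMap.sub_apply, map_sub, LinearMap.smul_apply, map_smul, Module.End.one_apply, h,
    smul_eq_mul, sub_self, LinearMap.zero_apply]

lemma growth (K : ℕ) (hK : 5 ≤ K) : (4 / 3 : ℝ) * K ≤ (3 / 2) ^ K := by
  induction K, hK using Nat.le_induction with
  | base => norm_num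
  | succ n hn ih =>
    rw [pow_succ]
    have : (5 : ℝ) ≤ n := by exact_mod_cast hn
    push_cast
    nlinarith

/-- existence of the root -/
lemma exists_root (K : ℕ) (hK : 5 ≤ K) : ∃ x : ℝ, 1 / 2 * (3 / 2) ^ K ≤ x ∧ x ≤ (3 / 2) ^ K ∧
    ((3 * x - 1) / (2 * x)) ^ K = x := by
  set A : ℝ := (3 / 2) ^ K with hA
  have hA1 := growth K hK
  rw [← hA] at hA1
  have hK5 : (5 : ℝ) ≤ K := by exact_mod_cast hK
  have hApos : 6 < A := by linarith
  have hcont : ContinuousOn (fun x : ℝ => x - ((3 * x - 1) / (2 * x)) ^ K)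
      (Set.Icc (1 / 2 * A) A) := by
    apply ContinuousOn.sub continuousOn_id
    apply ContinuousOn.pow
    apply ContinuousOn.div (by fun_prop) (by fun_prop)
    intro x hx
    have : 0 < x := by have := hx.1; linarith
    positivity
  have key : ∀ x : ℝ, 0 < x → ((3 * x - 1) / (2 * x)) ^ K = A * (1 + -(1 / (3 * x))) ^ K := by
    intro x hx
    rw [hA, ← mul_pow]
    congr 1
    field_simp
    ring
  have h := intermediate_value_Icc (by linarith) hcont
  have h0 : (0 : ℝ) ∈ Set.Icc ((1 / 2 * A) - ((3 * (1 / 2 * A) - 1) / (2 * (1 / 2 * A))) ^ K)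
      (A - ((3 * A - 1) / (2 * A)) ^ K) := by
    constructor
    · rw [key _ (by linarith)]
      have h1 : (1 : ℝ) + K * (-(1 / (3 * (1 / 2 * A)))) ≤ (1 + -(1 / (3 * (1 / 2 * A)))) ^ K := by
        apply one_add_mul_le_pow
        have : 1 / (3 * (1 / 2 * A)) ≤ 1 := by
          rw [div_le_one (by positivity)]; linarith
        linarith
      have h2 : (K : ℝ) * (1 / (3 * (1 / 2 * A))) ≤ 1 / 2 := by
        rw [mul_one_div, div_le_iff₀ (by positivity)]
        linarith
      have h3 : (1 / 2 : ℝ) ≤ (1 + -(1 / (3 * (1 / 2 * A)))) ^ K := by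
        refine le_trans ?_ h1
        linarith
      nlinarith
    · rw [key _ (by linarith)]
      have h1 : (1 + -(1 / (3 * A))) ^ K ≤ 1 := by
        apply pow_le_one₀
        · have : 1 / (3 * A) ≤ 1 := by
            rw [div_le_one (by positivity)]; linarith
          linarith
        · have : 0 ≤ 1 / (3 * A) := by positivity
          linarith
      nlinarith
  obtain ⟨x, hx, hx2⟩ := h h0
  exact ⟨x, hx.1, hx.2, by simp only at hx2; linarith⟩

/-- **Main theorem**. -/
theorem slow_eigenvalue (K : ℕ) (hK : 5 ≤ K) : ∃ t : ℝ, 1 / 2 * (3 / 4) ^ K ≤ t ∧ t ≤ (3 / 4) ^ K ∧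
    (Phi K).HasEigenvalue (t : ℂ) := by
  obtain ⟨x, hx1, hx2, hx3⟩ := exists_root K hK
  have hA := growth K hK
  have hK5 : (5 : ℝ) ≤ K := by exact_mod_cast hK
  have hx : 3 < x := by linarith
  have hx0 : 0 < x := by linarith
  set r : ℝ := (3 * x - 1) / (2 * x) with hr
  have hr0 : 0 < r := by
    rw [hr]; apply div_pos <;> linarith
  have hpow : ((3 : ℝ) / 4) ^ K = (3 / 2) ^ K / 2 ^ K := by
    rw [← div_pow]; norm_num
  refine ⟨x / 2 ^ K, ?_, ?_, ?_⟩
  · rw [hpow, ← mul_div_assoc]
    gcongr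
  · rw [hpow]
    gcongr
  · set φ : Fin (2 ^ K) → Fin (2 ^ K) → ℂ := fun i j => ((phi K x r K i j : ℝ) : ℂ) with hφ
    apply hasEigenvalue_of_left (Phi K) (traceMul (Obs (matX φ)))
    · -- the left eigenvector is nonzero
      intro h0
      have h2K : 2 ≤ 2 ^ K := by
        calc 2 = 2 ^ 1 := by norm_num
          _ ≤ 2 ^ K := Nat.pow_le_pow_right (by norm_num) (by omega)
      set a : Fin (2 ^ K) := ⟨0, by omega⟩ with ha
      set b : Fin (2 ^ K) := ⟨1, by omega⟩ with hb
      have hab : a < b := by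
        rw [Fin.lt_def]; simp [ha, hb]
      set P : Pair (2 ^ K) := ⟨(a, b), hab⟩ with hP
      have h1 := LinearMap.congr_fun h0 (Matrix.single (P, P) (P, P) 1)
      have h2 : traceMul (Obs (matX φ)) (Matrix.single (P, P) (P, P) 1) =
          Obs (matX φ) (P, P) (P, P) := by
        show (Obs (matX φ) * Matrix.single (P, P) (P, P) 1).trace = _
        rw [Matrix.trace_mul_single]
        simp
      rw [h2, LinearMap.zero_apply, hP, Obs_diag] at h1
      have hne : a ≠ b := hab.ne
      have hne' : b ≠ a := hab.ne'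
      have e1 : matX φ (a, a) (a, a) = φ a a := by
        show vecX φ ((a, a), (a, a)) = _
        unfold vecX; simp; ring
      have e2 : matX φ (a, b) (a, b) = φ a b / 2 := by
        show vecX φ ((a, b), (a, b)) = _
        unfold vecX; simp [hne]
      have e3 : matX φ (b, a) (b, a) = φ b a / 2 := by
        show vecX φ ((b, a), (b, a)) = _
        unfold vecX; simp [hne']
      have e4 : matX φ (b, b) (b, b) = φ b b := by
        show vecX φ ((b, b), (b, b)) = _
        unfold vecX; simp; ring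
      rw [e1, e2, e3, e4] at h1
      have p1 : ∀ i : Fin (2 ^ K), phi K x r K i i = x - 1 := by
        intro i; unfold phi; rw [lev_self]; ring
      have p2 : ∀ i j : Fin (2 ^ K), -2 ≤ phi K x r K i j := by
        intro i j
        unfold phi
        have : 0 ≤ (x + 1) / r ^ (lev K K i j) := by positivity
        linarith
      have h3 : phi K x r K a a + phi K x r K a b / 2 + phi K x r K b a / 2 + phi K x r K b b = 0 := by
        rw [hφ] at h1
        simp only at h1
        exact_mod_cast h1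
      rw [p1, p1] at h3
      have := p2 a b
      have := p2 b a
      linarith
    · intro Y
      exact left_eigen hx0 hr hr0 hx3 Y

end Pool.Agent.Work.MP_93fab9_mp
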